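import Mathlib

set_option autoImplicit false

/-!
# A lower bound for polynomials on some circle
-/

namespace Pool.Agent.H724R3.Semi

open Polynomial

noncomputable section

theorem exists_radius (s : Finset ℝ) (D : ℕ) (hs : s.card ≤ D) {r : ℝ} (hr : 0 < r) :
    ∃ ρ, r ≤ ρ ∧ ρ ≤ 2 * r ∧ ∀ x ∈ s, r / (2 * ((D : ℝ) + 1)) ≤ |ρ - x| := by
  by_contra hcon
  push Not at hcon
  have hD : (0 : ℝ) < (D : ℝ) + 1 := by positivity
  have h1 : ∀ i ∈ Finset.range (D + 1), ∃ x ∈ s, |r * (1 + (i : ℝ) / ((D : ℝ) + 1)) - x| <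
      r / (2 * ((D : ℝ) + 1)) := by
    intro i hi
    rw [Finset.mem_range] at hi
    have h3 : (i : ℝ) / ((D : ℝ) + 1) ≤ 1 := by
      rw [div_le_one hD]
      have : (i : ℝ) ≤ D := by exact_mod_cast Nat.lt_succ_iff.mp hi
      linarith
    have h4 : 0 ≤ (i : ℝ) / ((D : ℝ) + 1) := by positivity
    exact hcon _ (by nlinarith) (by nlinarith)
  choose! f hf1 hf2 using h1
  have hcard : s.card < (Finset.range (D + 1)).card := by
    rw [Finset.card_range]
    omega
  obtain ⟨i, hi, j, hj, hij, he⟩ := Finset.exists_ne_map_eq_of_card_lt_of_maps_to hcard hf1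
  have h5 := hf2 i hi
  have h6 := hf2 j hj
  rw [← he] at h6
  have h7 : |r * (1 + (i : ℝ) / ((D : ℝ) + 1)) - r * (1 + (j : ℝ) / ((D : ℝ) + 1))| <
      r / ((D : ℝ) + 1) := by
    have h8 := abs_sub_le (r * (1 + (i : ℝ) / ((D : ℝ) + 1))) (f i)
      (r * (1 + (j : ℝ) / ((D : ℝ) + 1)))
    rw [abs_sub_comm (f i)] at h8
    have h9 : r / (2 * ((D : ℝ) + 1)) + r / (2 * ((D : ℝ) + 1)) = r / ((D : ℝ) + 1) := by
      field_simp
      norm_num
    linarith
  have h10 : r * (1 + (i : ℝ) / ((D : ℝ) + 1)) - r * (1 + (j : ℝ) / ((D : ℝ) + 1)) =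
      r / ((D : ℝ) + 1) * ((i : ℝ) - j) := by ring
  rw [h10, abs_mul, abs_of_pos (div_pos hr hD)] at h7
  have h11 : (1 : ℝ) ≤ |(i : ℝ) - j| := by
    have h12 : (1 : ℤ) ≤ |(i : ℤ) - j| := Int.one_le_abs (sub_ne_zero.mpr (by exact_mod_cast hij))
    have h13 : ((1 : ℤ) : ℝ) ≤ ((|(i : ℤ) - j| : ℤ) : ℝ) := by exact_mod_cast h12
    simpa using h13
  have h14 : 0 < r / ((D : ℝ) + 1) := div_pos hr hD
  nlinarith

theorem coeff_bound (s : Multiset ℂ) {ρ : ℝ} (hρ : 0 ≤ ρ) (j : ℕ) :
    ‖(s.map fun a => X - C a).prod.coeff j‖ * ρ ^ j ≤ (s.map fun a => ρ + ‖a‖).prod := by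
  induction s using Multiset.induction_on generalizing j with
  | empty =>
    simp only [Multiset.map_zero, Multiset.prod_zero]
    rcases j with _ | j
    · simp
    · simp [Polynomial.coeff_one]
  | cons a s ih =>
    simp only [Multiset.map_cons, Multiset.prod_cons]
    have hpos : 0 ≤ (s.map fun a => ρ + ‖a‖).prod := by
      apply Multiset.prod_nonneg
      intro x hx
      rw [Multiset.mem_map] at hx
      obtain ⟨b, _, rfl⟩ := hx
      positivity
    rcases j with _ | j
    · have := ih 0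
      simp only [pow_zero, mul_one] at this ⊢
      rw [sub_mul, coeff_sub, coeff_C_mul, mul_coeff_zero, coeff_X_zero, zero_mul, zero_sub,
        norm_neg, norm_mul]
      calc ‖a‖ * ‖(s.map fun a => X - C a).prod.coeff 0‖ ≤ ‖a‖ * (s.map fun a => ρ + ‖a‖).prod :=
            mul_le_mul_of_nonneg_left this (norm_nonneg _)
        _ ≤ _ := mul_le_mul_of_nonneg_right (by linarith) hpos
    · rw [sub_mul, coeff_sub, coeff_C_mul, coeff_X_mul]
      have h1 := ih j
      have h2 := ih (j + 1)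
      have h3 : ‖(s.map fun a => X - C a).prod.coeff j -
          a * (s.map fun a => X - C a).prod.coeff (j + 1)‖ ≤
          ‖(s.map fun a => X - C a).prod.coeff j‖ +
          ‖a‖ * ‖(s.map fun a => X - C a).prod.coeff (j + 1)‖ := by
        refine (norm_sub_le _ _).trans ?_
        rw [norm_mul]
      calc _ ≤ (‖(s.map fun a => X - C a).prod.coeff j‖ +
          ‖a‖ * ‖(s.map fun a => X - C a).prod.coeff (j + 1)‖) * ρ ^ (j + 1) :=
            mul_le_mul_of_nonneg_right h3 (by positivity)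
        _ = ρ * (‖(s.map fun a => X - C a).prod.coeff j‖ * ρ ^ j) +
            ‖a‖ * (‖(s.map fun a => X - C a).prod.coeff (j + 1)‖ * ρ ^ (j + 1)) := by ring
        _ ≤ ρ * (s.map fun a => ρ + ‖a‖).prod + ‖a‖ * (s.map fun a => ρ + ‖a‖).prod :=
            add_le_add (mul_le_mul_of_nonneg_left h1 hρ)
              (mul_le_mul_of_nonneg_left h2 (norm_nonneg _))
        _ = _ := by ring

/-- the constant -/
def del (N : ℕ) : ℝ := (1 / (12 * ((N : ℝ) + 1))) ^ N

lemma del_pos (N : ℕ) : 0 < del N := by unfold del; positivity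

lemma del_le (N : ℕ) : del N ≤ 1 := by
  unfold del
  apply pow_le_one₀ (by positivity)
  rw [div_le_one (by positivity)]
  have : (0 : ℝ) ≤ N := by positivity
  linarith

theorem lower (N : ℕ) (x : ℕ → ℂ) {r : ℝ} (hr : 0 < r) :
    ∃ ρ, r ≤ ρ ∧ ρ ≤ 2 * r ∧ ∀ w : ℂ, ‖w‖ = ρ → ∀ j < N,
      del N * (‖x j‖ * ρ ^ j) ≤ ‖∑ i ∈ Finset.range N, x i * w ^ i‖ := by
  classical
  set P : ℂ[X] := ∑ i ∈ Finset.range N, C (x i) * X ^ i with hP
  have hev : ∀ w, P.eval w = ∑ i ∈ Finset.range N, x i * w ^ i := by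
    intro w
    simp [hP, eval_finsetSum]
  have hco : ∀ j < N, P.coeff j = x j := by
    intro j hj
    simp [hP, coeff_C_mul, coeff_X_pow, hj]
  by_cases hP0 : P = 0
  · refine ⟨r, le_rfl, by linarith, fun w _ j hj => ?_⟩
    rw [← hco j hj, hP0]
    simp
  have hdeg : P.natDegree ≤ N := by
    rw [natDegree_le_iff_coeff_eq_zero]
    intro j hj
    simp only [hP, finsetSum_coeff, coeff_C_mul, coeff_X_pow]
    apply Finset.sum_eq_zero
    intro i hi
    rw [Finset.mem_range] at hi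
    rw [if_neg (by omega), mul_zero]
  have hcard : P.roots.card ≤ N := (card_roots' P).trans hdeg
  obtain ⟨ρ, h1, h2, h3⟩ := exists_radius (P.roots.toFinset.image norm) N
    ((Finset.card_image_le.trans (Multiset.toFinset_card_le _)).trans hcard) hr
  refine ⟨ρ, h1, h2, fun w hw j hj => ?_⟩
  have hρ : 0 < ρ := by linarith
  have hfac : P = C P.leadingCoeff * (P.roots.map fun a => X - C a).prod :=
    (IsAlgClosed.splits P).eq_prod_roots
  set d : ℝ := 1 / (12 * ((N : ℝ) + 1)) with hd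
  have hd0 : 0 < d := by positivity
  have hd1 : d ≤ 1 := by
    rw [hd, div_le_one (by positivity)]
    have : (0 : ℝ) ≤ N := by positivity
    linarith
  have hN : (0 : ℝ) < (N : ℝ) + 1 := by positivity
  have hkey : ∀ a ∈ P.roots, d * (ρ + ‖a‖) ≤ ‖w - a‖ := by
    intro a ha
    have h4 := h3 ‖a‖ (Finset.mem_image.mpr ⟨a, Multiset.mem_toFinset.mpr ha, rfl⟩)
    have h5 : |ρ - ‖a‖| ≤ ‖w - a‖ := by
      rw [← hw]
      exact abs_norm_sub_norm_le _ _
    refine le_trans ?_ h5
    by_cases h6 : 4 * r ≤ ‖a‖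
    · have h7 : (ρ + ‖a‖) / 12 ≤ |ρ - ‖a‖| := by
        rw [abs_sub_comm, abs_of_nonneg (by linarith)]
        linarith
      refine le_trans ?_ h7
      have h8 : d ≤ 1 / 12 := by
        rw [hd]
        apply one_div_le_one_div_of_le (by norm_num)
        have : (0 : ℝ) ≤ N := by positivity
        linarith
      have := norm_nonneg a
      nlinarith
    · refine le_trans ?_ h4
      push Not at h6
      have h7 : ρ + ‖a‖ ≤ 6 * r := by linarith
      calc d * (ρ + ‖a‖) ≤ d * (6 * r) := mul_le_mul_of_nonneg_left h7 hd0.le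
        _ = r / (2 * ((N : ℝ) + 1)) := by
          rw [hd]
          field_simp
          norm_num
  have hprod : (P.roots.map fun a => d * (ρ + ‖a‖)).prod ≤ (P.roots.map fun a => ‖w - a‖).prod :=
    Multiset.prod_map_le_prod_map₀ _ _ (fun a _ => by positivity) hkey
  have hprod2 : (P.roots.map fun a => d * (ρ + ‖a‖)).prod =
      d ^ P.roots.card * (P.roots.map fun a => ρ + ‖a‖).prod := by
    rw [Multiset.prod_map_mul, Multiset.map_const', Multiset.prod_replicate]
  have hdN : d ^ N ≤ d ^ P.roots.card := pow_le_pow_of_le_one hd0.le hd1 hcard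
  have hpos : 0 ≤ (P.roots.map fun a => ρ + ‖a‖).prod := by
    apply Multiset.prod_nonneg
    intro y hy
    rw [Multiset.mem_map] at hy
    obtain ⟨b, _, rfl⟩ := hy
    positivity
  have hevn : ‖P.eval w‖ = ‖P.leadingCoeff‖ * (P.roots.map fun a => ‖w - a‖).prod := by
    conv_lhs => rw [hfac]
    rw [eval_mul, eval_C, norm_mul, eval_multiset_prod, Multiset.map_map]
    congr 1
    have : ∀ s : Multiset ℂ, ‖(s.map fun a => w - a).prod‖ = (s.map fun a => ‖w - a‖).prod := by
      intro s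
      induction s using Multiset.induction_on with
      | empty => simp
      | cons a s ih => simp [ih]
    rw [← this]
    congr 2
    apply Multiset.map_congr rfl
    intro a _
    simp
  rw [← hev, hevn]
  have hcb : ‖x j‖ * ρ ^ j ≤ ‖P.leadingCoeff‖ * (P.roots.map fun a => ρ + ‖a‖).prod := by
    rw [← hco j hj]
    conv_lhs => rw [hfac]
    rw [coeff_C_mul, norm_mul, mul_assoc]
    exact mul_le_mul_of_nonneg_left (coeff_bound _ hρ.le j) (norm_nonneg _)
  calc del N * (‖x j‖ * ρ ^ j)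
      ≤ d ^ N * (‖P.leadingCoeff‖ * (P.roots.map fun a => ρ + ‖a‖).prod) :=
        mul_le_mul_of_nonneg_left hcb (del_pos N).le
    _ = ‖P.leadingCoeff‖ * (d ^ N * (P.roots.map fun a => ρ + ‖a‖).prod) := by ring
    _ ≤ ‖P.leadingCoeff‖ * (P.roots.map fun a => ‖w - a‖).prod := by
        apply mul_le_mul_of_nonneg_left _ (norm_nonneg _)
        refine le_trans ?_ (hprod2 ▸ hprod)
        exact mul_le_mul_of_nonneg_right hdN hpos

end

end Pool.Agent.H724R3.Semi
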