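import Pool.Agent.H724R3.Weight
import Pool.Agent.H724R3.Lower

set_option autoImplicit false

/-!
# A weighted convolution algebra on the rationals in `(0,1)`
-/

namespace Pool.Agent.H724R3.Semi

open Pool.Agent.H724R3.NonStd (lev lev_add lev_spec lev_le eq_div)
open Filter Topology

noncomputable section

/-- the rationals in `(0,1)` -/
abbrev S := {q : ℚ // 0 < q ∧ q < 1}

/-- the space `ℓ¹` over the rationals in `(0,1)` -/
abbrev L := lp (fun _ : S => ℂ) 1

/-- the unit vectors -/
def e (s : S) : L := lp.single 1 s (1 : ℂ)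

lemma e_apply (s t : S) : e s t = if t = s then 1 else 0 := by
  unfold e
  rw [lp.single_apply]
  by_cases h : t = s
  · subst h
    simp
  · rw [Pi.single_eq_of_ne h, if_neg h]

lemma norm_e (s : S) : ‖e s‖ = 1 := by
  unfold e
  rw [lp.norm_single (by norm_num)]
  simp

lemma norm_hasSum (F : L) : HasSum (fun s => ‖F s‖) ‖F‖ := by
  have := lp.hasSum_norm (p := 1) (by simp) F
  simpa using this

lemma hasSum_e (F : L) : HasSum (fun s => F s • e s) F := by
  have := lp.hasSum_single (p := 1) (by simp) F
  convert this using 2 with s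
  unfold e
  rw [← lp.single_smul]
  simp

theorem ext_L {E : Type*} [NormedAddCommGroup E] [NormedSpace ℂ E] {A B : L →L[ℂ] E}
    (h : ∀ s, A (e s) = B (e s)) : A = B := by
  ext F
  have h1 := (hasSum_e F).mapL A
  have h2 := (hasSum_e F).mapL B
  simp only [map_smul, h] at h1 h2
  exact h1.unique h2

section lift

variable {E : Type*} [NormedAddCommGroup E] [NormedSpace ℂ E] [CompleteSpace E]

open Classical in
/-- extension of a bounded family of vectors to a linear map -/
def lift (v : S → E) : L →L[ℂ] E :=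
  if h : ∀ s, ‖v s‖ ≤ 1 then
    LinearMap.mkContinuous
      { toFun := fun F => ∑' s, F s • v s
        map_add' := fun F G => by
          have hs : ∀ F : L, Summable fun s => F s • v s := fun F =>
            Summable.of_norm_bounded (norm_hasSum F).summable fun s => by
              rw [norm_smul]
              exact mul_le_of_le_one_right (norm_nonneg _) (h s)
          rw [← (hs F).tsum_add (hs G)]
          congr 1
          funext s
          rw [← add_smul]
          rfl
        map_smul' := fun c F => by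
          have hs : ∀ F : L, Summable fun s => F s • v s := fun F =>
            Summable.of_norm_bounded (norm_hasSum F).summable fun s => by
              rw [norm_smul]
              exact mul_le_of_le_one_right (norm_nonneg _) (h s)
          rw [RingHom.id_apply, ← (hs F).tsum_const_smul c]
          congr 1
          funext s
          rw [← smul_assoc]
          rfl }
      1 (fun F => by
        rw [one_mul]
        change ‖∑' s, F s • v s‖ ≤ ‖F‖
        refine tsum_of_norm_bounded (norm_hasSum F) fun s => ?_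
        rw [norm_smul]
        exact mul_le_of_le_one_right (norm_nonneg _) (h s))
  else 0

lemma lift_apply {v : S → E} (h : ∀ s, ‖v s‖ ≤ 1) (F : L) : lift v F = ∑' s, F s • v s := by
  unfold lift
  rw [dif_pos h]
  rfl

lemma lift_e {v : S → E} (h : ∀ s, ‖v s‖ ≤ 1) (s : S) : lift v (e s) = v s := by
  rw [lift_apply h, tsum_eq_single s]
  · rw [e_apply, if_pos rfl, one_smul]
  · intro t ht
    rw [e_apply, if_neg ht, zero_smul]

lemma norm_lift_le (v : S → E) : ‖lift v‖ ≤ 1 := by
  unfold lift
  split_ifs with h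
  · exact LinearMap.mkContinuous_norm_le _ zero_le_one _
  · simp

end lift

/-- a bilinear form bounded on the unit vectors -/
theorem bil_bound (T : L → L → ℂ) (hl : ∀ F, ∃ A : L →L[ℂ] ℂ, ∀ G, T F G = A G)
    (hr : ∀ G, ∃ A : L →L[ℂ] ℂ, ∀ F, T F G = A F) {K : ℝ}
    (hT : ∀ r s, ‖T (e r) (e s)‖ ≤ K) (F G : L) : ‖T F G‖ ≤ K * (‖F‖ * ‖G‖) := by
  have h1 : ∀ r, ‖T (e r) G‖ ≤ K * ‖G‖ := by
    intro r
    obtain ⟨A, hA⟩ := hl (e r)
    have h2 := (hasSum_e G).mapL A
    rw [hA, ← h2.tsum_eq]
    refine tsum_of_norm_bounded ((norm_hasSum G).mul_left K) fun s => ?_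
    rw [map_smul, norm_smul, mul_comm, ← hA]
    exact mul_le_mul_of_nonneg_right (hT r s) (norm_nonneg (G s))
  obtain ⟨A, hA⟩ := hr G
  have h2 := (hasSum_e F).mapL A
  have h4 : K * (‖F‖ * ‖G‖) = (K * ‖G‖) * ‖F‖ := by ring
  rw [hA, ← h2.tsum_eq, h4]
  refine tsum_of_norm_bounded ((norm_hasSum F).mul_left (K * ‖G‖)) fun s => ?_
  rw [map_smul, norm_smul, mul_comm, ← hA]
  exact mul_le_mul_of_nonneg_right (h1 s) (norm_nonneg (F s))

/-- the growth of the weight -/
def H (n : ℕ) : ℝ :=
  1 + ∑ m ∈ Finset.range (n + 1), 1 / (del m.factorial * (del m.factorial / 2) ^ m.factorial)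

lemma Hterm (m : ℕ) : 1 ≤ 1 / (del m.factorial * (del m.factorial / 2) ^ m.factorial) := by
  have h0 := del_pos m.factorial
  have h1 := del_le m.factorial
  rw [le_div_iff₀ (by positivity), one_mul]
  have h2 : (del m.factorial / 2) ^ m.factorial ≤ 1 := pow_le_one₀ (by positivity) (by linarith)
  calc del m.factorial * (del m.factorial / 2) ^ m.factorial ≤ 1 * 1 :=
        mul_le_mul h1 h2 (by positivity) zero_le_one
    _ = 1 := one_mul 1

lemma H_mono : Monotone H := by
  intro a b h
  unfold H
  have : ∑ m ∈ Finset.range (a + 1), 1 / (del m.factorial * (del m.factorial / 2) ^ m.factorial) ≤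
      ∑ m ∈ Finset.range (b + 1), 1 / (del m.factorial * (del m.factorial / 2) ^ m.factorial) := by
    apply Finset.sum_le_sum_of_subset_of_nonneg
    · intro i hi
      rw [Finset.mem_range] at hi ⊢
      omega
    · intro i _ _
      linarith [Hterm i]
  linarith

lemma H_ge (n : ℕ) : (n : ℝ) ≤ H n := by
  unfold H
  have h1 : ∑ m ∈ Finset.range (n + 1), (1 : ℝ) ≤
      ∑ m ∈ Finset.range (n + 1), 1 / (del m.factorial * (del m.factorial / 2) ^ m.factorial) :=
    Finset.sum_le_sum fun i _ => Hterm i
  rw [Finset.sum_const, Finset.card_range, nsmul_eq_mul, mul_one] at h1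
  push_cast at h1
  linarith

lemma H_ge' (n : ℕ) : 1 / (del n.factorial * (del n.factorial / 2) ^ n.factorial) ≤ H n := by
  unfold H
  have := Finset.single_le_sum (f := fun m : ℕ =>
    1 / (del m.factorial * (del m.factorial / 2) ^ m.factorial))
    (fun i _ => by linarith [Hterm i]) (Finset.mem_range.mpr (Nat.lt_succ_self n))
  linarith

lemma H_one (n : ℕ) : 1 ≤ H n := by
  unfold H
  have : 0 ≤ ∑ m ∈ Finset.range (n + 1),
      1 / (del m.factorial * (del m.factorial / 2) ^ m.factorial) :=
    Finset.sum_nonneg fun i _ => by linarith [Hterm i]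
  linarith

/-- the weight -/
def w (q : ℚ) : ℝ := H (lev q)

lemma w_one (q : ℚ) : 1 ≤ w q := H_one _

lemma w_pos (q : ℚ) : 0 < w q := lt_of_lt_of_le one_pos (w_one q)

lemma w_add (r s : ℚ) : w (r + s) ≤ w r * w s := by
  have h1 : w (r + s) ≤ H (max (lev r) (lev s)) := H_mono (lev_add r s)
  refine h1.trans ?_
  have hr := w_one r
  have hs := w_one s
  rcases max_cases (lev r) (lev s) with ⟨h, _⟩ | ⟨h, _⟩ <;> rw [h]
  · change w r ≤ w r * w s
    nlinarith
  · change w s ≤ w r * w s
    nlinarith

/-- the structure constants -/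
def kap (r s : ℚ) : ℝ := w (r + s) / (w r * w s)

lemma kap_nonneg (r s : ℚ) : 0 ≤ kap r s :=
  div_nonneg (w_pos _).le (mul_pos (w_pos _) (w_pos _)).le

lemma kap_le (r s : ℚ) : kap r s ≤ 1 := by
  unfold kap
  rw [div_le_one (mul_pos (w_pos _) (w_pos _))]
  exact w_add r s

/-- the product of two unit vectors -/
def vv (r s : S) : L :=
  if h : (r : ℚ) + s < 1 then
    ((kap r s : ℝ) : ℂ) • e ⟨(r : ℚ) + s, by linarith [r.2.1, s.2.1], h⟩
  else 0

lemma norm_vv (r s : S) : ‖vv r s‖ ≤ 1 := by
  unfold vv
  split_ifs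
  · rw [norm_smul, norm_e, mul_one, Complex.norm_real, Real.norm_eq_abs,
      abs_of_nonneg (kap_nonneg _ _)]
    exact kap_le _ _
  · simp

/-- the product -/
def B : L →L[ℂ] L →L[ℂ] L := lift (fun r => lift (fun s => vv r s))

lemma B_ee (r s : S) : B (e r) (e s) = vv r s := by
  unfold B
  rw [lift_e (fun r => norm_lift_le _), lift_e (norm_vv r)]

lemma norm_B (F G : L) : ‖B F G‖ ≤ ‖F‖ * ‖G‖ := by
  have h1 : ‖B‖ ≤ 1 := norm_lift_le _
  calc ‖B F G‖ ≤ ‖B F‖ * ‖G‖ := (B F).le_opNorm G
    _ ≤ (‖B‖ * ‖F‖) * ‖G‖ := mul_le_mul_of_nonneg_right (B.le_opNorm F) (norm_nonneg _)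
    _ ≤ (1 * ‖F‖) * ‖G‖ := by gcongr
    _ = _ := by rw [one_mul]

lemma B_comm (F G : L) : B F G = B G F := by
  have h1 : B = B.flip := by
    apply ext_L
    intro r
    apply ext_L
    intro s
    rw [ContinuousLinearMap.flip_apply, B_ee, B_ee]
    unfold vv
    by_cases h : (r : ℚ) + s < 1
    · rw [dif_pos h, dif_pos (by rwa [add_comm])]
      congr 1
      · unfold kap
        rw [add_comm, mul_comm (w r)]
      · congr 1
        apply Subtype.ext
        exact add_comm _ _
    · rw [dif_neg h, dif_neg (by rwa [add_comm])]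
  conv_lhs => rw [h1]
  rfl

lemma kap_assoc (r s t : ℚ) : kap r s * kap (r + s) t = kap s t * kap r (s + t) := by
  unfold kap
  have h1 := (w_pos r).ne'
  have h2 := (w_pos s).ne'
  have h3 := (w_pos t).ne'
  have h4 := (w_pos (r + s)).ne'
  have h5 := (w_pos (s + t)).ne'
  rw [add_assoc r s t]
  field_simp

lemma B_assoc_e (r s t : S) : B (B (e r) (e s)) (e t) = B (e r) (B (e s) (e t)) := by
  rw [B_ee, B_ee]
  have hr := r.2.1
  have hs := s.2.1
  have ht := t.2.1
  unfold vv
  by_cases h : (r : ℚ) + s + t < 1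
  · rw [dif_pos (by linarith), dif_pos (by linarith)]
    rw [map_smul, map_smul, _root_.smul_apply, B_ee, B_ee]
    unfold vv
    rw [dif_pos (by simpa using h), dif_pos (by simp only; linarith)]
    rw [smul_smul, smul_smul]
    simp only
    congr 1
    · have := kap_assoc r s t
      rw [← Complex.ofReal_mul, ← Complex.ofReal_mul, this]
    · congr 1
      apply Subtype.ext
      exact add_assoc _ _ _
  · have h1 : (if h : (r : ℚ) + s < 1 then
        ((kap r s : ℝ) : ℂ) • e ⟨(r : ℚ) + s, by linarith [r.2.1, s.2.1], h⟩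
        else 0 : L) = 0 ∨ (r : ℚ) + s < 1 := by
      by_cases h' : (r : ℚ) + s < 1
      · exact Or.inr h'
      · left
        rw [dif_neg h']
    have hL : B (if h : (r : ℚ) + s < 1 then
        ((kap r s : ℝ) : ℂ) • e ⟨(r : ℚ) + s, by linarith [r.2.1, s.2.1], h⟩
        else 0 : L) (e t) = 0 := by
      by_cases h' : (r : ℚ) + s < 1
      · rw [dif_pos h', map_smul, _root_.smul_apply, B_ee]
        unfold vv
        rw [dif_neg (by simpa using h), smul_zero]
      · rw [dif_neg h', map_zero, _root_.zero_apply]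
    have hR : B (e r) (if h : (s : ℚ) + t < 1 then
        ((kap s t : ℝ) : ℂ) • e ⟨(s : ℚ) + t, by linarith [s.2.1, t.2.1], h⟩
        else 0 : L) = 0 := by
      by_cases h' : (s : ℚ) + t < 1
      · rw [dif_pos h', map_smul, B_ee]
        unfold vv
        rw [dif_neg (by simp only; intro h''; exact h (by linarith)), smul_zero]
      · rw [dif_neg h', map_zero]
    rw [hL, hR]

lemma B_assoc (F G K : L) : B (B F G) K = B F (B G K) := by
  -- step 1: `G = e s`, `K = e t`
  have s1 : ∀ (s t : S) (F : L), B (B F (e s)) (e t) = B F (B (e s) (e t)) := by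
    intro s t F
    have : (B.flip (e t)).comp (B.flip (e s)) = B.flip (B (e s) (e t)) := by
      apply ext_L
      intro r
      exact B_assoc_e r s t
    exact congrArg (fun A : L →L[ℂ] L => A F) this
  have s2 : ∀ (t : S) (F G : L), B (B F G) (e t) = B F (B G (e t)) := by
    intro t F G
    have : (B.flip (e t)).comp (B F) = (B F).comp (B.flip (e t)) := by
      apply ext_L
      intro s
      exact s1 s t F
    exact congrArg (fun A : L →L[ℂ] L => A G) this
  have : B (B F G) = (B F).comp (B G) := by
    apply ext_L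
    intro t
    exact s2 t F G
  exact congrArg (fun A : L →L[ℂ] L => A K) this

lemma B_add_left (F G K : L) : B (F + G) K = B F K + B G K := by
  rw [map_add]
  rfl

lemma B_zero_left (F : L) : B 0 F = 0 := by
  rw [map_zero]
  rfl

lemma B_smul_left (c : ℂ) (F G : L) : B (c • F) G = c • B F G := by
  rw [map_smul]
  rfl

lemma B_smul_right (c : ℂ) (F G : L) : B F (c • G) = c • B F G := by
  rw [map_smul]

/-- the algebra -/
def R : Type := L

instance : NormedAddCommGroup R := inferInstanceAs (NormedAddCommGroup L)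
instance : NormedSpace ℂ R := inferInstanceAs (NormedSpace ℂ L)
instance : CompleteSpace R := inferInstanceAs (CompleteSpace L)

instance instRingR : NonUnitalNormedCommRing R where
  __ := (inferInstance : NormedAddCommGroup R)
  mul := fun F G => B F G
  left_distrib := fun F G K => map_add (B F) G K
  right_distrib := fun F G K => B_add_left F G K
  zero_mul := fun F => B_zero_left F
  mul_zero := fun F => map_zero (B F)
  mul_assoc := fun F G K => B_assoc F G K
  mul_comm := fun F G => B_comm F G
  norm_mul_le := fun F G => norm_B F G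

lemma mul_def (F G : R) : F * G = B F G := rfl

instance : IsScalarTower ℂ R R := ⟨fun c F G => B_smul_left c F G⟩

instance : SMulCommClass ℂ R R := ⟨fun c F G => (B_smul_right c F G).symm⟩

end

end Pool.Agent.H724R3.Semi
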