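import Pool.Agent.H724R3.NoSemi

set_option autoImplicit false

/-!
# No continuous semigroups: conclusion
-/

namespace Pool.Agent.H724R3.Semi

open Pool.Agent.H724R3.NonStd (lev lev_add lev_spec lev_le eq_div)
open Filter Topology Polynomial

noncomputable section

lemma nz_sq (ρ : ℝ) (P : ℂ[X]) : nz ρ (P * P) = 2 * nz ρ P := by
  by_cases hP : P = 0
  · subst hP
    simp [nz]
  · unfold nz
    rw [roots_mul (mul_ne_zero hP hP), Multiset.filter_add, Multiset.card_add]
    ring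

/-- The key step at a fixed level. -/
theorem key (a : ℝ → L) (t : ℝ) (ht : 0 < t) (hcont : ContinuousOn a (Set.Ioi 0))
    (hmul : ∀ x y, 0 < x → 0 < y → a (x + y) = B (a x) (a y)) (n : ℕ) {ρ : ℝ} (hρ0 : 0 < ρ)
    (hρ1 : ρ ≤ 1) {D γ : ℝ} (hD : 1 ≤ D)
    (haD : ∀ x, t / 4 ≤ x → x ≤ 3 * t / 4 → ‖a x‖ ≤ D) (hγ0 : 0 < γ) (hγ1 : γ ≤ 1)
    (hγ : ∀ z : ℂ, ‖z‖ = ρ → γ ≤ ‖ev n z (a t)‖)
    (herr : D ^ 2 * (ρ ^ n.factorial + 1 / H n ^ 2) ≤ γ / 2) : False := by
  have hH : 0 < H n := lt_of_lt_of_le one_pos (H_one n)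
  set η : ℝ := D ^ 2 * (ρ ^ n.factorial + 1 / H n ^ 2) with hη
  have hη0 : 0 < η := by positivity
  have hdef : ∀ x y, t / 4 ≤ x → x ≤ 3 * t / 4 → t / 4 ≤ y → y ≤ 3 * t / 4 → ∀ z : ℂ, ‖z‖ = ρ →
      ‖ev n z (a (x + y)) - ev n z (a x) * ev n z (a y)‖ ≤ η := by
    intro x y hx1 hx2 hy1 hy2 z hz
    rw [hmul x y (by linarith) (by linarith)]
    refine (defect n (by rw [hz]; exact hρ1) (a x) (a y)).trans ?_
    rw [hz, hη, mul_comm, sq D]
    apply mul_le_mul_of_nonneg_right _ (by positivity)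
    exact mul_le_mul (haD x hx1 hx2) (haD y hy1 hy2) (norm_nonneg _) (by linarith)
  -- nonvanishing
  have hprod : ∀ x, t / 4 ≤ x → x ≤ 3 * t / 4 → ∀ z : ℂ, ‖z‖ = ρ →
      γ / 2 ≤ ‖ev n z (a x) * ev n z (a (t - x))‖ := by
    intro x hx1 hx2 z hz
    have h1 := hdef x (t - x) hx1 hx2 (by linarith) (by linarith) z hz
    have h2 : x + (t - x) = t := by ring
    rw [h2] at h1
    have h3 := hγ z hz
    have h4 := norm_sub_norm_le (ev n z (a t)) (ev n z (a x) * ev n z (a (t - x)))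
    linarith
  have hne : ∀ x, t / 4 ≤ x → x ≤ 3 * t / 4 → ∀ z : ℂ, ‖z‖ = ρ → ev n z (a x) ≠ 0 := by
    intro x hx1 hx2 z hz h0
    have := hprod x hx1 hx2 z hz
    rw [h0, zero_mul, norm_zero] at this
    linarith
  -- continuity: the count is constant
  have e1 : nz ρ (pol n (a (t / 4))) = nz ρ (pol n (a (t / 2))) := by
    set τ : ℝ → ℝ := fun x => max (t / 4) (min (t / 2) x) with hτ
    have hτ0 : ∀ x, t / 4 ≤ τ x := fun x => le_max_left _ _
    have hτ1 : ∀ x, τ x ≤ t / 2 := fun x => max_le (by linarith) (min_le_left _ _)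
    have hcτ : Continuous fun x => a (τ x) := by
      refine hcont.comp_continuous (by fun_prop) fun x => ?_
      have := hτ0 x
      simp only [Set.mem_Ioi]
      linarith
    have h := nz_const hρ0 n.factorial (fun j x => co ((j : ℚ) / (n.factorial : ℚ)) (a (τ x)))
      (fun j => (co _).continuous.comp hcτ) (by
        intro x z hz
        rw [← ev_apply]
        exact hne _ (hτ0 x) (by linarith [hτ1 x]) z hz) (t / 4) (t / 2)
    have h1 : τ (t / 4) = t / 4 := by
      simp only [hτ]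
      rw [min_eq_right (by linarith), max_self]
    have h2 : τ (t / 2) = t / 2 := by
      simp only [hτ]
      rw [min_self, max_eq_right (by linarith)]
    simp only [h1, h2] at h
    exact h
  -- multiplicativity
  have e2 : nz ρ (pol n (a (t / 2))) = nz ρ (pol n (a (t / 4)) * pol n (a (t / 4))) := by
    apply nz_homotopy hρ0
    intro z hz
    rw [eval_mul, pol_eval, pol_eval, norm_sub_rev]
    have h1 := hdef (t / 4) (t / 4) le_rfl (by linarith) le_rfl (by linarith) z hz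
    have h2 : t / 4 + t / 4 = t / 2 := by ring
    rw [h2] at h1
    refine h1.trans_lt ?_
    have h3 := hprod (t / 2) (by linarith) (by linarith) z hz
    have h4 : t - t / 2 = t / 2 := by ring
    rw [h4, norm_mul] at h3
    by_contra h5
    push Not at h5
    have h6 := norm_nonneg (ev n z (a (t / 2)))
    have h7 : ‖ev n z (a (t / 2))‖ * ‖ev n z (a (t / 2))‖ ≤ η * η :=
      mul_le_mul h5 h5 h6 hη0.le
    nlinarith
  rw [nz_sq] at e2
  have e3 : nz ρ (pol n (a (t / 4))) = 0 := by omega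
  have hpne : pol n (a (t / 4)) ≠ 0 := by
    intro h0
    have := hne (t / 4) le_rfl (by linarith) (ρ : ℂ) (by simp [abs_of_pos hρ0])
    rw [← pol_eval, h0, eval_zero] at this
    exact this rfl
  have hroot : (0 : ℂ) ∈ (pol n (a (t / 4))).roots := by
    rw [mem_roots hpne]
    exact pol_zero n _
  unfold nz at e3
  rw [Multiset.card_eq_zero] at e3
  have : (0 : ℂ) ∈ (pol n (a (t / 4))).roots.filter fun b => ‖b‖ < ρ := by
    rw [Multiset.mem_filter]
    exact ⟨hroot, by simpa using hρ0⟩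
  rw [e3] at this
  exact absurd this (Multiset.notMem_zero _)

lemma del_small (N : ℕ) (hN : 1 ≤ N) : del N ≤ 1 / N := by
  unfold del
  have hN' : (1 : ℝ) ≤ N := by exact_mod_cast hN
  have h1 : (1 : ℝ) / (12 * ((N : ℝ) + 1)) ≤ 1 := by
    rw [div_le_one (by positivity)]
    linarith
  calc (1 / (12 * ((N : ℝ) + 1))) ^ N ≤ (1 / (12 * ((N : ℝ) + 1))) ^ 1 :=
        pow_le_pow_of_le_one (by positivity) h1 hN
    _ = 1 / (12 * ((N : ℝ) + 1)) := pow_one _
    _ ≤ 1 / N := by
        apply one_div_le_one_div_of_le (by linarith)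
        linarith

/-- There is no nonzero continuous semigroup. -/
theorem no_semigroup (a : ℝ → L) (hcont : ContinuousOn a (Set.Ioi 0))
    (hmul : ∀ x y, 0 < x → 0 < y → a (x + y) = B (a x) (a y)) (t : ℝ) (ht : 0 < t) :
    a t = 0 := by
  by_contra hne
  -- a nonzero coefficient
  obtain ⟨q, hq⟩ : ∃ q : S, a t q ≠ 0 := by
    by_contra h
    push Not at h
    apply hne
    apply lp.ext
    funext s
    rw [h s]
    rfl
  have hμ0 : 0 < ‖co q (a t)‖ := by
    rw [norm_pos_iff, co_apply]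
    apply mul_ne_zero hq
    rw [Complex.ofReal_ne_zero]
    exact (one_div_w _).1.ne'
  set μ : ℝ := min ‖co q (a t)‖ 1 with hμ
  have hμp : 0 < μ := lt_min hμ0 one_pos
  have hμ1 : μ ≤ 1 := min_le_right _ _
  -- the bound on a compact set
  obtain ⟨D, hD1, hD⟩ : ∃ D : ℝ, 1 ≤ D ∧ ∀ x, t / 4 ≤ x → x ≤ 3 * t / 4 → ‖a x‖ ≤ D := by
    have hc : ContinuousOn (fun x => ‖a x‖) (Set.Icc (t / 4) (3 * t / 4)) := by
      apply ContinuousOn.norm
      apply hcont.mono
      intro x hx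
      rw [Set.mem_Icc] at hx
      rw [Set.mem_Ioi]
      linarith
    obtain ⟨D, hD⟩ := isCompact_Icc.bddAbove_image hc
    refine ⟨max D 1, le_max_right _ _, fun x hx1 hx2 => ?_⟩
    exact (hD (Set.mem_image_of_mem _ ⟨hx1, hx2⟩)).trans (le_max_left _ _)
  -- the level
  obtain ⟨n1, hn1⟩ := exists_nat_gt (4 * D ^ 2 / μ)
  obtain ⟨n2, hn2⟩ := exists_nat_gt (2 / (1 - (q : ℚ)))
  set n : ℕ := max (max n1 n2) (max (lev q) 1) with hn
  have hnn1 : n1 ≤ n := (le_max_left _ _).trans (le_max_left _ _)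
  have hnn2 : n2 ≤ n := (le_max_right _ _).trans (le_max_left _ _)
  have hnlev : lev q ≤ n := (le_max_left _ _).trans (le_max_right _ _)
  have hn0 : 1 ≤ n := (le_max_right _ _).trans (le_max_right _ _)
  set N : ℕ := n.factorial with hN
  have hnN : n ≤ N := Nat.self_le_factorial n
  obtain ⟨k, hk, hqk⟩ := (level_iff n q).mp hnlev
  have hk2 : k + 2 ≤ N := by
    have h1 : (0 : ℚ) < 1 - q := by linarith [q.2.2]
    rw [div_lt_iff₀ h1] at hn2
    have h2 : (n2 : ℚ) ≤ N := by exact_mod_cast hnn2.trans hnN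
    have h3 : (2 : ℚ) < N * (1 - q) := by nlinarith
    rw [hqk] at h3
    have h4 := fac_pos n
    have h5 : (N : ℚ) * (1 - k / (n.factorial : ℚ)) = N - k := by
      rw [hN]
      field_simp
    rw [h5] at h3
    have h6 : ((k + 2 : ℕ) : ℚ) < N := by
      push_cast
      linarith
    have : k + 2 < N := by exact_mod_cast h6
    omega
  have hδ := del_pos N
  have hδ1 := del_le N
  -- the radius
  obtain ⟨ρ, hρ1, hρ2, hρ⟩ := lower N (fun j => co ((j : ℚ) / (n.factorial : ℚ)) (a t))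
    (show 0 < del N / 2 by linarith)
  have hρ0 : 0 < ρ := by linarith
  have hρδ : ρ ≤ del N := by linarith
  have hρle : ρ ≤ 1 := hρδ.trans hδ1
  set γ : ℝ := del N * (μ * ρ ^ k) with hγ
  have hγ0 : 0 < γ := by positivity
  have hγ1 : γ ≤ 1 := by
    have h1 : ρ ^ k ≤ 1 := pow_le_one₀ hρ0.le hρle
    have h2 : μ * ρ ^ k ≤ 1 := by
      calc μ * ρ ^ k ≤ 1 * 1 := mul_le_mul hμ1 h1 (by positivity) zero_le_one
        _ = 1 := one_mul 1
    calc γ ≤ 1 * 1 := mul_le_mul hδ1 h2 (by positivity) zero_le_one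
      _ = 1 := one_mul 1
  have hH : 0 < H n := lt_of_lt_of_le one_pos (H_one n)
  have hNpos : 1 ≤ N := Nat.succ_le_of_lt n.factorial_pos
  have hNn1 : (n1 : ℝ) ≤ N := by exact_mod_cast hnn1.trans hnN
  have hδN := del_small N hNpos
  have hNr : (0 : ℝ) < N := by exact_mod_cast hNpos
  have hDδ : 4 * D ^ 2 * del N ≤ μ := by
    rw [div_lt_iff₀ hμp] at hn1
    have h1 : 4 * D ^ 2 ≤ N * μ := hn1.le.trans (mul_le_mul_of_nonneg_right hNn1 hμp.le)
    calc 4 * D ^ 2 * del N ≤ (N * μ) * (1 / N) := mul_le_mul h1 hδN hδ.le (by positivity)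
      _ = μ := by field_simp
  refine key a t ht hcont hmul n hρ0 hρle hD1 hD hγ0 hγ1 ?_ ?_
  · intro z hz
    have h1 := hρ z hz k hk
    rw [ev_apply]
    refine le_trans ?_ h1
    rw [hγ]
    apply mul_le_mul_of_nonneg_left _ hδ.le
    apply mul_le_mul_of_nonneg_right _ (by positivity)
    rw [← hqk]
    exact min_le_left _ _
  · -- the error
    have h1 : D ^ 2 * ρ ^ N ≤ γ / 4 := by
      have h2 : ρ ^ N ≤ ρ ^ k * (del N * del N) := by
        obtain ⟨m, hm⟩ := Nat.exists_eq_add_of_le hk2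
        rw [hm, pow_add, pow_add]
        have h3 : ρ ^ m ≤ 1 := pow_le_one₀ hρ0.le hρle
        have h4 : ρ ^ 2 ≤ del N * del N := by
          rw [sq]
          exact mul_le_mul hρδ hρδ hρ0.le hδ.le
        rw [← hm]
        calc ρ ^ k * ρ ^ 2 * ρ ^ m ≤ ρ ^ k * ρ ^ 2 * 1 :=
              mul_le_mul_of_nonneg_left h3 (by positivity)
          _ = ρ ^ k * ρ ^ 2 := mul_one _
          _ ≤ ρ ^ k * (del N * del N) := mul_le_mul_of_nonneg_left h4 (by positivity)
      calc D ^ 2 * ρ ^ N ≤ D ^ 2 * (ρ ^ k * (del N * del N)) :=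
            mul_le_mul_of_nonneg_left h2 (by positivity)
        _ = (4 * D ^ 2 * del N) * (del N * ρ ^ k) / 4 := by ring
        _ ≤ μ * (del N * ρ ^ k) / 4 := by
            apply div_le_div_of_nonneg_right _ (by norm_num)
            exact mul_le_mul_of_nonneg_right hDδ (by positivity)
        _ = γ / 4 := by rw [hγ]; ring
    have h2 : D ^ 2 * (1 / H n ^ 2) ≤ γ / 4 := by
      have h3 : 1 / (del N * (del N / 2) ^ N) ≤ H n := H_ge' n
      have h4 : 4 * D ^ 2 / μ ≤ H n := by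
        refine (hn1.le.trans ?_).trans (H_ge n)
        exact_mod_cast hnn1
      have h5 : (del N / 2) ^ N ≤ ρ ^ k := by
        calc (del N / 2) ^ N ≤ ρ ^ N := pow_le_pow_left₀ (by positivity) hρ1 N
          _ ≤ ρ ^ k := pow_le_pow_of_le_one hρ0.le hρle (by omega)
      have h6 : 1 / (del N * ρ ^ k) ≤ H n := by
        refine le_trans ?_ h3
        apply one_div_le_one_div_of_le (by positivity)
        exact mul_le_mul_of_nonneg_left h5 hδ.le
      have h7 : (4 * D ^ 2 / μ) * (1 / (del N * ρ ^ k)) ≤ H n * H n :=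
        mul_le_mul h4 h6 (by positivity) hH.le
      rw [mul_one_div, div_le_div_iff₀ (by positivity) (by norm_num)]
      have h8 : (4 * D ^ 2 / μ) * (1 / (del N * ρ ^ k)) = 4 * D ^ 2 / γ := by
        rw [hγ]
        field_simp
      rw [h8, div_le_iff₀ hγ0] at h7
      nlinarith
    have h9 : D ^ 2 * (ρ ^ n.factorial + 1 / H n ^ 2) = D ^ 2 * ρ ^ N + D ^ 2 * (1 / H n ^ 2) := by
      rw [hN]
      ring
    rw [h9]
    linarith

end

end Pool.Agent.H724R3.Semi
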