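import Mathlib

set_option autoImplicit false

/-!
# The number of zeros in a disc is constant in a continuous family of polynomials
-/

namespace Pool.Agent.H724R3.Semi

open Polynomial Metric

noncomputable section

/-- the number of zeros in the open disc of radius `ρ` -/
def nz (ρ : ℝ) (P : ℂ[X]) : ℕ := (P.roots.filter fun a => ‖a‖ < ρ).card

theorem integral_multiset {ρ : ℝ} (hρ : 0 < ρ) (s : Multiset ℂ) (hs : ∀ a ∈ s, ‖a‖ ≠ ρ) :
    CircleIntegrable (fun z => (s.map fun a => 1 / (z - a)).sum) 0 ρ ∧
    (∮ z in C(0, ρ), (s.map fun a => 1 / (z - a)).sum) =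
      (2 * Real.pi * Complex.I) * ((s.filter fun a => ‖a‖ < ρ).card : ℂ) := by
  induction s using Multiset.induction_on with
  | empty =>
    refine ⟨by simp [CircleIntegrable], ?_⟩
    simp [circleIntegral]
  | cons a s ih =>
    have ha : ‖a‖ ≠ ρ := hs a (Multiset.mem_cons_self a s)
    obtain ⟨ih1, ih2⟩ := ih fun b hb => hs b (Multiset.mem_cons_of_mem hb)
    have hint : CircleIntegrable (fun z => 1 / (z - a)) 0 ρ := by
      apply ContinuousOn.circleIntegrable hρ.le
      apply ContinuousOn.div continuousOn_const (by fun_prop)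
      intro z hz h
      rw [mem_sphere, dist_zero_right] at hz
      rw [sub_eq_zero.mp h] at hz
      exact ha hz
    simp only [Multiset.map_cons, Multiset.sum_cons]
    refine ⟨hint.add ih1, ?_⟩
    rw [circleIntegral.integral_add hint ih1, ih2]
    by_cases h : ‖a‖ < ρ
    · rw [Multiset.filter_cons_of_pos (p := fun a => ‖a‖ < ρ) s h, Multiset.card_cons]
      have h1 : (∮ z in C(0, ρ), 1 / (z - a)) = 2 * Real.pi * Complex.I := by
        simp only [one_div]
        apply circleIntegral.integral_sub_inv_of_mem_ball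
        simpa using h
      rw [h1]
      push_cast
      ring
    · rw [Multiset.filter_cons_of_neg (p := fun a => ‖a‖ < ρ) s h]
      have h1 : (∮ z in C(0, ρ), 1 / (z - a)) = 0 := by
        have hlt : ρ < ‖a‖ := lt_of_le_of_ne (not_lt.mp h) (Ne.symm ha)
        have hne : ∀ z ∈ closedBall (0 : ℂ) ρ, z - a ≠ 0 := by
          intro z hz h0
          rw [mem_closedBall, dist_zero_right] at hz
          rw [sub_eq_zero.mp h0] at hz
          linarith
        apply Complex.circleIntegral_eq_zero_of_differentiable_on_off_countable hρ.le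
          Set.countable_empty
        · exact ContinuousOn.div continuousOn_const (by fun_prop) hne
        · intro z hz
          apply DifferentiableAt.div (by fun_prop) (by fun_prop)
          exact hne z (ball_subset_closedBall hz.1)
      rw [h1, zero_add]

theorem integral_poly {ρ : ℝ} (hρ : 0 < ρ) (P : ℂ[X]) (hP : ∀ w : ℂ, ‖w‖ = ρ → P.eval w ≠ 0) :
    (∮ z in C(0, ρ), (derivative P).eval z / P.eval z) =
      (2 * Real.pi * Complex.I) * (nz ρ P : ℂ) := by
  have hroots : ∀ a ∈ P.roots, ‖a‖ ≠ ρ := by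
    intro a ha h
    exact hP a h (isRoot_of_mem_roots ha)
  rw [nz, ← (integral_multiset hρ P.roots hroots).2]
  apply circleIntegral.integral_congr hρ.le
  intro z hz
  rw [mem_sphere, dist_zero_right] at hz
  exact (IsAlgClosed.splits P).eval_derivative_div_eval_of_ne_zero (hP z hz)

theorem nz_const {ρ : ℝ} (hρ : 0 < ρ) (M : ℕ) (c : ℕ → ℝ → ℂ) (hc : ∀ j, Continuous (c j))
    (hne : ∀ t, ∀ w : ℂ, ‖w‖ = ρ → ∑ j ∈ Finset.range M, c j t * w ^ j ≠ 0) (t₁ t₂ : ℝ) :
    nz ρ (∑ j ∈ Finset.range M, C (c j t₁) * X ^ j) =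
      nz ρ (∑ j ∈ Finset.range M, C (c j t₂) * X ^ j) := by
  set P : ℝ → ℂ[X] := fun t => ∑ j ∈ Finset.range M, C (c j t) * X ^ j with hP
  have hev : ∀ t w, (P t).eval w = ∑ j ∈ Finset.range M, c j t * w ^ j := by
    intro t w
    simp [hP, eval_finsetSum]
  have hder : ∀ t w, (derivative (P t)).eval w =
      ∑ j ∈ Finset.range M, c j t * ((j : ℂ) * w ^ (j - 1)) := by
    intro t w
    simp only [hP, derivative_sum, eval_finsetSum, derivative_C_mul, eval_mul, eval_C,
      derivative_X_pow, eval_pow, eval_X, map_natCast, eval_natCast]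
  have hPne : ∀ t, ∀ w : ℂ, ‖w‖ = ρ → (P t).eval w ≠ 0 := by
    intro t w hw
    rw [hev]
    exact hne t w hw
  have hcm : ∀ θ : ℝ, ‖circleMap 0 ρ θ‖ = ρ := by
    intro θ
    simp [abs_of_pos hρ]
  have hcont : Continuous fun t => ∮ z in C(0, ρ), (derivative (P t)).eval z / (P t).eval z := by
    unfold circleIntegral
    apply intervalIntegral.continuous_parametric_intervalIntegral_of_continuous'
    simp only [Function.uncurry_def, hev, hder, deriv_circleMap, smul_eq_mul]
    refine Continuous.mul ?_ (Continuous.div ?_ ?_ ?_)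
    · fun_prop
    · apply continuous_finsetSum
      intro j _
      exact ((hc j).comp continuous_fst).mul (by fun_prop)
    · apply continuous_finsetSum
      intro j _
      exact ((hc j).comp continuous_fst).mul (by fun_prop)
    · intro p
      exact hne _ _ (hcm _)
  have h1 : ∀ t, (nz ρ (P t) : ℂ) = (2 * Real.pi * Complex.I)⁻¹ *
      ∮ z in C(0, ρ), (derivative (P t)).eval z / (P t).eval z := by
    intro t
    rw [integral_poly hρ (P t) (hPne t), inv_mul_cancel_left₀]
    simp [Real.pi_ne_zero, Complex.I_ne_zero]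
  have h2 : Continuous fun t => ((nz ρ (P t) : ℕ) : ℂ) := by
    simp only [h1]
    exact continuous_const.mul hcont
  have h3 : Continuous fun t => ((nz ρ (P t) : ℕ) : ℝ) := by
    have := Complex.continuous_re.comp h2
    refine this.congr fun t => ?_
    simp
  have h4 : Continuous fun t => nz ρ (P t) :=
    (Nat.isClosedEmbedding_coe_real.isEmbedding.continuous_iff).mpr h3
  exact isPreconnected_univ.constant h4.continuousOn (Set.mem_univ t₁) (Set.mem_univ t₂)

/-- Two families: a straight-line homotopy. -/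
theorem nz_homotopy {ρ : ℝ} (hρ : 0 < ρ) (P Q : ℂ[X])
    (h : ∀ w : ℂ, ‖w‖ = ρ → ‖Q.eval w - P.eval w‖ < ‖P.eval w‖) : nz ρ P = nz ρ Q := by
  set M := max (P.natDegree) (Q.natDegree) + 1 with hM
  have hexp : ∀ R : ℂ[X], R.natDegree < M → R = ∑ j ∈ Finset.range M, C (R.coeff j) * X ^ j := by
    intro R hR
    exact R.as_sum_range_C_mul_X_pow' hR
  have hPs := hexp P (by omega)
  have hQs := hexp Q (by omega)
  set τ : ℝ → ℝ := fun t => max 0 (min 1 t) with hτ
  have hτ0 : ∀ t, 0 ≤ τ t := fun t => le_max_left _ _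
  have hτ1 : ∀ t, τ t ≤ 1 := fun t => max_le zero_le_one (min_le_left _ _)
  have hcτ : Continuous τ := by fun_prop
  have hev : ∀ R : ℂ[X], R.natDegree < M → ∀ w, R.eval w =
      ∑ j ∈ Finset.range M, R.coeff j * w ^ j := by
    intro R hR w
    exact eval_eq_sum_range' hR w
  have key := nz_const hρ M (fun j t => P.coeff j + (τ t : ℂ) * (Q.coeff j - P.coeff j))
    (fun j => by fun_prop) (by
      intro t w hw h0
      have h1 : ∑ j ∈ Finset.range M, (P.coeff j + (τ t : ℂ) * (Q.coeff j - P.coeff j)) * w ^ j =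
          P.eval w + (τ t : ℂ) * (Q.eval w - P.eval w) := by
        rw [hev P (by omega), hev Q (by omega), ← Finset.sum_sub_distrib, Finset.mul_sum,
          ← Finset.sum_add_distrib]
        refine Finset.sum_congr rfl fun j _ => ?_
        ring
      rw [h1] at h0
      have h2 : P.eval w = -((τ t : ℂ) * (Q.eval w - P.eval w)) := eq_neg_of_add_eq_zero_left h0
      have h3 : ‖P.eval w‖ = τ t * ‖Q.eval w - P.eval w‖ := by
        conv_lhs => rw [h2]
        rw [norm_neg, norm_mul, Complex.norm_real, Real.norm_eq_abs, abs_of_nonneg (hτ0 t)]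
      have h4 := h w hw
      have h5 := norm_nonneg (Q.eval w - P.eval w)
      nlinarith [hτ1 t, hτ0 t]) 0 1
  have e0 : τ 0 = 0 := by simp [hτ]
  have e1 : τ 1 = 1 := by simp [hτ]
  simp only [e0, e1, Complex.ofReal_zero, zero_mul, add_zero, Complex.ofReal_one, one_mul,
    add_sub_cancel] at key
  rw [← hPs, ← hQs] at key
  exact key

end

end Pool.Agent.H724R3.Semi
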