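import Pool.Agent.H724R3.Rad
import Pool.Agent.H724R3.Wind

set_option autoImplicit false

/-!
# No continuous semigroups
-/

namespace Pool.Agent.H724R3.Semi

open Pool.Agent.H724R3.NonStd (lev lev_add lev_spec lev_le eq_div)
open Filter Topology Polynomial

noncomputable section

/-- the coefficient at `q` -/
def co (q : ℚ) : L →L[ℂ] ℂ := lift (fun s => if (s : ℚ) = q then (((1 / w q : ℝ) : ℝ) : ℂ) else 0)

lemma co_bound (q : ℚ) (s : S) :
    ‖(if (s : ℚ) = q then (((1 / w q : ℝ) : ℝ) : ℂ) else 0 : ℂ)‖ ≤ 1 := by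
  split_ifs
  · rw [Complex.norm_real, Real.norm_eq_abs, abs_of_pos (by have := w_pos q; positivity)]
    rw [div_le_one (w_pos q)]
    exact w_one q
  · simp

lemma co_e (q : ℚ) (s : S) : co q (e s) = if (s : ℚ) = q then (((1 / w q : ℝ) : ℝ) : ℂ) else 0 :=
  lift_e (co_bound q) s

lemma co_zero : co 0 = 0 := by
  apply ext_L
  intro s
  rw [co_e, if_neg s.2.1.ne']
  rfl

lemma co_apply (s : S) (F : L) : co s F = F s * (((1 / w s : ℝ) : ℝ) : ℂ) := by
  rw [co, lift_apply (co_bound s), tsum_eq_single s]
  · rw [if_pos rfl, smul_eq_mul]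
  · intro t ht
    rw [if_neg, smul_zero]
    intro h
    exact ht (Subtype.ext h)

/-- evaluation of the level `n` part at `z` -/
def ev (n : ℕ) (z : ℂ) : L →L[ℂ] ℂ :=
  ∑ j ∈ Finset.range n.factorial, z ^ j • co ((j : ℚ) / (n.factorial : ℚ))

lemma ev_apply (n : ℕ) (z : ℂ) (F : L) : ev n z F =
    ∑ j ∈ Finset.range n.factorial, co ((j : ℚ) / (n.factorial : ℚ)) F * z ^ j := by
  unfold ev
  rw [ContinuousLinearMap.sum_apply]
  refine Finset.sum_congr rfl fun j _ => ?_
  rw [_root_.smul_apply, smul_eq_mul, mul_comm]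

lemma fac_pos (n : ℕ) : (0 : ℚ) < (n.factorial : ℚ) := by exact_mod_cast n.factorial_pos

/-- elements of level at most `n` -/
lemma level_iff (n : ℕ) (s : S) : lev s ≤ n ↔ ∃ j < n.factorial, (s : ℚ) = (j : ℚ) / n.factorial := by
  constructor
  · intro h
    obtain ⟨j, _, hj⟩ := eq_div (s : ℚ) s.2.1.le (by linarith [s.2.2])
    obtain ⟨t, ht⟩ := Nat.factorial_dvd_factorial h
    have h1 : (n.factorial : ℚ) = ((lev (s : ℚ)).factorial : ℚ) * t := by exact_mod_cast ht
    have h2 : (s : ℚ) = ((j * t : ℕ) : ℚ) / n.factorial := by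
      have h3 := fac_pos (lev (s : ℚ))
      have h4 : (t : ℚ) ≠ 0 := by
        intro h0
        have := fac_pos n
        rw [h1, h0, mul_zero] at this
        exact lt_irrefl _ this
      conv_lhs => rw [hj]
      rw [h1]
      push_cast
      field_simp
    refine ⟨j * t, ?_, h2⟩
    have h5 := s.2.2
    rw [h2, div_lt_one (fac_pos n)] at h5
    exact_mod_cast h5
  · rintro ⟨j, _, hj⟩
    apply lev_le
    have h1 : ((s : ℚ) * n.factorial) = j := by
      rw [hj, div_mul_cancel₀]
      exact (fac_pos n).ne'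
    have h2 : ((s : ℚ) * n.factorial).den = 1 := by rw [h1]; exact Rat.den_natCast j
    have h3 : (s : ℚ) = (j : ℚ) / (n.factorial : ℚ) := hj
    rw [h3]
    have h4 : ((j : ℚ) / (n.factorial : ℚ)) = ((j : ℤ) : ℚ) / ((n.factorial : ℤ) : ℚ) := by
      push_cast
      rfl
    rw [h4]
    have := Rat.den_dvd (j : ℤ) (n.factorial : ℤ)
    exact_mod_cast this

lemma ev_e_of_eq {n j : ℕ} (hj : j < n.factorial) {s : S} (hs : (s : ℚ) = (j : ℚ) / n.factorial)
    (z : ℂ) : ev n z (e s) = z ^ j * (((1 / w s : ℝ) : ℝ) : ℂ) := by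
  rw [ev_apply, Finset.sum_eq_single j]
  · rw [co_e, if_pos hs, ← hs, mul_comm]
  · intro i _ hij
    rw [co_e, if_neg, zero_mul]
    intro h
    rw [hs, div_left_inj' (fac_pos n).ne'] at h
    exact hij (by exact_mod_cast h.symm)
  · intro h
    exact absurd (Finset.mem_range.mpr hj) h

lemma ev_e_of_gt {n : ℕ} {s : S} (hs : n < lev s) (z : ℂ) : ev n z (e s) = 0 := by
  rw [ev_apply]
  apply Finset.sum_eq_zero
  intro j hj
  rw [co_e, if_neg, zero_mul]
  intro h
  have := (level_iff n s).mpr ⟨j, Finset.mem_range.mp hj, h⟩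
  omega

lemma lev_neg (q : ℚ) : lev (-q) = lev q := by
  have h : ∀ q : ℚ, lev (-q) ≤ lev q := fun q => lev_le (by rw [Rat.neg_den]; exact lev_spec q)
  have h2 := h (-q)
  rw [neg_neg] at h2
  exact le_antisymm (h q) h2

lemma one_div_w (q : ℚ) : 0 < 1 / w q ∧ 1 / w q ≤ 1 := by
  have h := w_pos q
  refine ⟨by positivity, ?_⟩
  rw [div_le_one h]
  exact w_one q

/-- the multiplicative defect on unit vectors -/
lemma defect_e (n : ℕ) {z : ℂ} (hz : ‖z‖ ≤ 1) (r s : S) :
    ‖ev n z (B (e r) (e s)) - ev n z (e r) * ev n z (e s)‖ ≤ ‖z‖ ^ n.factorial + 1 / H n ^ 2 := by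
  have hH : 0 < H n := lt_of_lt_of_le one_pos (H_one n)
  have hb1 : 0 ≤ ‖z‖ ^ n.factorial := by positivity
  have hb2 : 0 ≤ 1 / H n ^ 2 := by positivity
  rw [B_ee]
  rcases le_or_gt (lev r) n with hr | hr
  · obtain ⟨i, hi, hri⟩ := (level_iff n r).mp hr
    rcases le_or_gt (lev s) n with hs | hs
    · obtain ⟨j, hj, hsj⟩ := (level_iff n s).mp hs
      rw [ev_e_of_eq hi hri, ev_e_of_eq hj hsj]
      unfold vv
      by_cases h : (r : ℚ) + s < 1
      · rw [dif_pos h, map_smul]
        have h1 : (r : ℚ) + s = ((i + j : ℕ) : ℚ) / n.factorial := by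
          rw [hri, hsj]
          push_cast
          ring
        have h2 : i + j < n.factorial := by
          rw [h1, div_lt_one (fac_pos n)] at h
          exact_mod_cast h
        rw [ev_e_of_eq (j := i + j) h2 (by simpa using h1)]
        have h3 : ((kap r s : ℝ) : ℂ) • (z ^ (i + j) * (((1 / w ((r : ℚ) + s) : ℝ) : ℝ) : ℂ)) -
            z ^ i * (((1 / w r : ℝ) : ℝ) : ℂ) * (z ^ j * (((1 / w s : ℝ) : ℝ) : ℂ)) = 0 := by
          have h4 : kap r s * (1 / w ((r : ℚ) + s)) = (1 / w r) * (1 / w s) := by
            unfold kap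
            have h5 := (w_pos ((r : ℚ) + s)).ne'
            have h6 := (w_pos r).ne'
            have h7 := (w_pos s).ne'
            field_simp
          rw [smul_eq_mul]
          have h8 : ((kap r s : ℝ) : ℂ) * (((1 / w ((r : ℚ) + s) : ℝ) : ℝ) : ℂ) =
              (((1 / w r : ℝ) : ℝ) : ℂ) * (((1 / w s : ℝ) : ℝ) : ℂ) := by
            rw [← Complex.ofReal_mul, h4, Complex.ofReal_mul]
          rw [pow_add]
          linear_combination (z ^ i * z ^ j) * h8
        simp only at h3 ⊢
        rw [h3, norm_zero]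
        positivity
      · rw [dif_neg h, map_zero, zero_sub, norm_neg]
        have h2 : n.factorial ≤ i + j := by
          by_contra h3
          push Not at h3
          apply h
          rw [hri, hsj, ← add_div, div_lt_one (fac_pos n)]
          exact_mod_cast h3
        have h4 : ‖z ^ i * (((1 / w r : ℝ) : ℝ) : ℂ) * (z ^ j * (((1 / w s : ℝ) : ℝ) : ℂ))‖ ≤
            ‖z‖ ^ (i + j) := by
          rw [norm_mul, norm_mul, norm_mul, norm_pow, norm_pow, Complex.norm_real, Complex.norm_real,
            Real.norm_eq_abs, Real.norm_eq_abs, abs_of_pos (one_div_w r).1,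
            abs_of_pos (one_div_w s).1, pow_add]
          have h5 : 0 ≤ ‖z‖ ^ i := by positivity
          have h6 : 0 ≤ ‖z‖ ^ j := by positivity
          exact mul_le_mul (mul_le_of_le_one_right h5 (one_div_w r).2)
            (mul_le_of_le_one_right h6 (one_div_w s).2) (by have := (one_div_w s).1; positivity) h5
        have h5 := pow_le_pow_of_le_one (norm_nonneg z) hz h2
        linarith
    · rw [ev_e_of_gt hs, mul_zero, sub_zero]
      have h1 : ev n z (vv r s) = 0 := by
        unfold vv
        split_ifs with h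
        · rw [map_smul, ev_e_of_gt, smul_zero]
          by_contra h2
          push Not at h2
          have h3 := lev_add ((r : ℚ) + s) (-(r : ℚ))
          rw [lev_neg] at h3
          have h4 : (r : ℚ) + s + -(r : ℚ) = s := by ring
          rw [h4] at h3
          have h5 : lev ((r : ℚ) + s) ≤ n := h2
          have := max_le h5 hr
          omega
        · rw [map_zero]
      rw [h1, norm_zero]
      positivity
  · rw [ev_e_of_gt hr, zero_mul, sub_zero]
    rcases le_or_gt (lev s) n with hs | hs
    · have h1 : ev n z (vv r s) = 0 := by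
        unfold vv
        split_ifs with h
        · rw [map_smul, ev_e_of_gt, smul_zero]
          by_contra h2
          push Not at h2
          have h3 := lev_add ((r : ℚ) + s) (-(s : ℚ))
          rw [lev_neg] at h3
          have h4 : (r : ℚ) + s + -(s : ℚ) = r := by ring
          rw [h4] at h3
          have h5 : lev ((r : ℚ) + s) ≤ n := h2
          have := max_le h5 hs
          omega
        · rw [map_zero]
      rw [h1, norm_zero]
      positivity
    · have h1 : ‖ev n z (vv r s)‖ ≤ 1 / H n ^ 2 := by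
        unfold vv
        split_ifs with h
        · rw [map_smul, norm_smul, Complex.norm_real, Real.norm_eq_abs,
            abs_of_nonneg (kap_nonneg _ _)]
          have h2 : ‖ev n z (e ⟨(r : ℚ) + s, by linarith [r.2.1, s.2.1], h⟩)‖ ≤
              1 / w ((r : ℚ) + s) := by
            rcases le_or_gt (lev ((r : ℚ) + s)) n with h3 | h3
            · obtain ⟨j, hj, hsj⟩ := (level_iff n ⟨(r : ℚ) + s, by linarith [r.2.1, s.2.1], h⟩).mp h3
              rw [ev_e_of_eq hj hsj, norm_mul, norm_pow, Complex.norm_real, Real.norm_eq_abs,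
                abs_of_pos (one_div_w _).1]
              exact mul_le_of_le_one_left (one_div_w _).1.le (pow_le_one₀ (norm_nonneg _) hz)
            · rw [ev_e_of_gt h3, norm_zero]
              exact (one_div_w _).1.le
          have hwr : H n ≤ w r := H_mono hr.le
          have hws : H n ≤ w s := H_mono hs.le
          calc kap r s * ‖ev n z (e ⟨(r : ℚ) + s, by linarith [r.2.1, s.2.1], h⟩)‖
              ≤ kap r s * (1 / w ((r : ℚ) + s)) :=
                mul_le_mul_of_nonneg_left h2 (kap_nonneg _ _)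
            _ = 1 / (w r * w s) := by
              unfold kap
              have h5 := (w_pos ((r : ℚ) + s)).ne'
              have h6 := (w_pos r).ne'
              have h7 := (w_pos s).ne'
              field_simp
            _ ≤ 1 / H n ^ 2 := by
              apply one_div_le_one_div_of_le (by positivity)
              rw [sq]
              exact mul_le_mul hwr hws hH.le (w_pos _).le
        · rw [map_zero, norm_zero]
          positivity
      linarith

lemma defect (n : ℕ) {z : ℂ} (hz : ‖z‖ ≤ 1) (F G : L) :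
    ‖ev n z (B F G) - ev n z F * ev n z G‖ ≤
      (‖z‖ ^ n.factorial + 1 / H n ^ 2) * (‖F‖ * ‖G‖) := by
  refine bil_bound (fun F G => ev n z (B F G) - ev n z F * ev n z G) ?_ ?_
    (fun r s => defect_e n hz r s) F G
  · intro F
    exact ⟨(ev n z).comp (B F) - (ev n z F) • ev n z, fun G => rfl⟩
  · intro G
    refine ⟨(ev n z).comp (B.flip G) - (ev n z G) • ev n z, fun F => ?_⟩
    change _ = ev n z (B F G) - ev n z G * ev n z F
    rw [mul_comm (ev n z F)]

/-- the polynomial of the level `n` part -/
def pol (n : ℕ) (F : L) : ℂ[X] :=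
  ∑ j ∈ Finset.range n.factorial, C (co ((j : ℚ) / (n.factorial : ℚ)) F) * X ^ j

lemma pol_eval (n : ℕ) (F : L) (z : ℂ) : (pol n F).eval z = ev n z F := by
  rw [ev_apply]
  simp [pol, eval_finsetSum]

lemma pol_zero (n : ℕ) (F : L) : (pol n F).eval 0 = 0 := by
  rw [pol_eval, ev_apply]
  apply Finset.sum_eq_zero
  intro j _
  rcases j with _ | j
  · have : ((0 : ℕ) : ℚ) / (n.factorial : ℚ) = 0 := by simp
    rw [this, co_zero]
    simp
  · simp

end

end Pool.Agent.H724R3.Semi
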