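import Mathlib

set_option autoImplicit false

/-!
# A function `ψ` on the rationals with `ψ x = ∑ c k * ψ (x + s k)`
-/

namespace Pool.Agent.H724R3.NonStd

open Filter Topology

noncomputable section

/-- the shifts -/
def s (k : ℕ) : ℚ := 1 / ((k : ℚ) + 2)

/-- the coefficients -/
def c (k : ℕ) : ℝ := (1 / 2) ^ k

lemma c_pos (k : ℕ) : 0 < c k := by unfold c; positivity

lemma c_summable : Summable c := summable_geometric_two

lemma s_pos (k : ℕ) : 0 < s k := by unfold s; positivity

lemma s_lt_one (k : ℕ) : s k < 1 := by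
  unfold s
  rw [div_lt_one (by positivity)]
  have : (0 : ℚ) ≤ k := by positivity
  linarith

lemma s_inj : Function.Injective s := by
  intro a b h
  unfold s at h
  rw [div_eq_div_iff (by positivity) (by positivity)] at h
  have : (a : ℚ) = b := by linarith
  exact_mod_cast this

lemma ev1 (a : ℚ) : ∀ᶠ k in atTop, s k ≠ a := by
  by_cases h : ∃ k, s k = a
  · obtain ⟨k, hk⟩ := h
    filter_upwards [eventually_gt_atTop k] with m hm hma
    have := s_inj (hma.trans hk.symm)
    omega
  · push Not at h
    exact Eventually.of_forall h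

lemma s_lt_of {δ : ℚ} {k N : ℕ} (hN : 1 / δ < N) (hδ : 0 < δ) (hk : N ≤ k) : s k < δ := by
  unfold s
  rw [div_lt_comm₀ (by positivity) hδ]
  have : (N : ℚ) ≤ k := by exact_mod_cast hk
  linarith

lemma ev_lt {δ : ℚ} (h : 0 < δ) : ∀ᶠ k in atTop, s k < δ := by
  obtain ⟨N, hN⟩ := exists_nat_gt (1 / δ)
  filter_upwards [eventually_ge_atTop N] with k hk
  exact s_lt_of hN h hk

lemma ev2 {δ : ℚ} (h : δ ≠ 0) : ∀ᶠ k in atTop, ∀ j, s k ≠ δ + s j := by
  rcases lt_or_gt_of_ne h with h | h
  · obtain ⟨N, hN⟩ := exists_nat_gt (1 / (-δ))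
    have h1 : ∀ᶠ k in atTop, ∀ j ∈ Finset.range N, s k ≠ δ + s j := by
      rw [eventually_all_finset]
      intro j _
      exact ev1 _
    filter_upwards [h1] with k hk j hj
    by_cases hjN : j < N
    · exact hk j (Finset.mem_range.mpr hjN) hj
    · have h2 : s j < -δ := s_lt_of hN (by linarith) (by omega)
      have h3 := s_pos k
      linarith
  · filter_upwards [ev_lt h] with k hk j hj
    have := s_pos j
    linarith

/-- an enumeration of the rationals -/
def e (n : ℕ) : ℚ := (Denumerable.eqv ℚ).symm n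

/-- the index of a rational -/
def idx (q : ℚ) : ℕ := Denumerable.eqv ℚ q

lemma e_idx (q : ℚ) : e (idx q) = q := by simp [e, idx]

lemma e_inj : Function.Injective e := (Denumerable.eqv ℚ).symm.injective

lemma exists_K (n : ℕ) : ∃ k, (e n < 1 → e n + s k < 1) ∧ (∀ i ≤ n, e n + s k ≠ e i) ∧
    (∀ i < n, ∀ j, e n + s k ≠ e i + s j) := by
  have h1 : ∀ᶠ k in atTop, (e n < 1 → e n + s k < 1) := by
    by_cases h : e n < 1
    · filter_upwards [ev_lt (sub_pos.mpr h)] with k hk _
      linarith
    · exact Eventually.of_forall fun k h' => absurd h' h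
  have h2 : ∀ᶠ k in atTop, ∀ i ∈ Finset.range (n + 1), e n + s k ≠ e i := by
    rw [eventually_all_finset]
    intro i _
    filter_upwards [ev1 (e i - e n)] with k hk hk'
    exact hk (by linarith)
  have h3 : ∀ᶠ k in atTop, ∀ i ∈ Finset.range n, ∀ j, e n + s k ≠ e i + s j := by
    rw [eventually_all_finset]
    intro i hi
    have hne : e i - e n ≠ 0 := by
      intro h
      have := e_inj (sub_eq_zero.mp h)
      rw [Finset.mem_range] at hi
      omega
    filter_upwards [ev2 hne] with k hk j hj
    exact hk j (by linarith)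
  obtain ⟨k, a, b, d⟩ := (h1.and (h2.and h3)).exists
  exact ⟨k, a, fun i hi => b i (Finset.mem_range.mpr (by omega)),
    fun i hi => d i (Finset.mem_range.mpr hi)⟩

/-- the chosen index -/
def K (n : ℕ) : ℕ := (exists_K n).choose

lemma K1 (n : ℕ) : e n < 1 → e n + s (K n) < 1 := (exists_K n).choose_spec.1

lemma K2 (n i : ℕ) (h : i ≤ n) : e n + s (K n) ≠ e i := (exists_K n).choose_spec.2.1 i h

lemma K3 (n i : ℕ) (h : i < n) (j : ℕ) : e n + s (K n) ≠ e i + s j :=
  (exists_K n).choose_spec.2.2 i h j

open Classical in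
/-- one step of the construction -/
def step (n : ℕ) (Ψ : ℚ → ℝ) : ℚ → ℝ :=
  if 0 ≤ e n ∧ e n < 1 then
    Function.update Ψ (e n + s (K n))
      (Ψ (e n + s (K n)) + (Ψ (e n) - ∑' k, c k * Ψ (e n + s k)) / c (K n))
  else Ψ

open Classical in
/-- the approximations -/
def P : ℕ → ℚ → ℝ
  | 0 => fun q => if q = 0 then 1 else 0
  | n + 1 => step n (P n)

lemma step_of_ne {n : ℕ} {Ψ : ℚ → ℝ} {q : ℚ} (h : e n + s (K n) ≠ q) : step n Ψ q = Ψ q := by
  unfold step
  split_ifs
  · rw [Function.update_of_ne (Ne.symm h)]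
  · rfl

lemma P_bdd (n : ℕ) : ∃ B, ∀ q, |P n q| ≤ B := by
  induction n with
  | zero =>
    refine ⟨1, fun q => ?_⟩
    simp only [P]
    split_ifs <;> simp
  | succ n ih =>
    obtain ⟨B, hB⟩ := ih
    refine ⟨max B |P (n + 1) (e n + s (K n))|, fun q => ?_⟩
    by_cases h : e n + s (K n) = q
    · rw [← h]
      exact le_max_right _ _
    · have : P (n + 1) q = P n q := step_of_ne h
      rw [this]
      exact (hB q).trans (le_max_left _ _)

lemma P_supp (n : ℕ) (q : ℚ) (h : q < 0 ∨ 1 ≤ q) : P n q = 0 := by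
  induction n with
  | zero =>
    simp only [P]
    rw [if_neg]
    rintro rfl
    rcases h with h | h <;> linarith
  | succ n ih =>
    change step n (P n) q = 0
    by_cases h1 : 0 ≤ e n ∧ e n < 1
    · rw [step_of_ne, ih]
      rintro rfl
      have := K1 n h1.2
      have := s_pos (K n)
      rcases h with h | h <;> linarith
    · unfold step
      rw [if_neg h1, ih]

lemma P_zero (n : ℕ) : P n 0 = 1 := by
  induction n with
  | zero => simp [P]
  | succ n ih =>
    change step n (P n) 0 = 1
    by_cases h1 : 0 ≤ e n ∧ e n < 1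
    · rw [step_of_ne, ih]
      have := s_pos (K n)
      have := h1.1
      linarith
    · unfold step
      rw [if_neg h1, ih]

/-- values at `e n` never change after step `n` -/
lemma P_stable (n m : ℕ) (h : n ≤ m) : P m (e n) = P n (e n) := by
  induction m, h using Nat.le_induction with
  | base => rfl
  | succ m hm ih =>
    change step m (P m) (e n) = _
    rw [step_of_ne (K2 m n hm), ih]

lemma P_stable' (n m : ℕ) (h : n + 1 ≤ m) (j : ℕ) : P m (e n + s j) = P (n + 1) (e n + s j) := by
  induction m, h using Nat.le_induction with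
  | base => rfl
  | succ m hm ih =>
    change step m (P m) (e n + s j) = _
    rw [step_of_ne (K3 m n (by omega) j), ih]

lemma P_sum (n : ℕ) (h : 0 ≤ e n ∧ e n < 1) :
    HasSum (fun k => c k * P (n + 1) (e n + s k)) (P (n + 1) (e n)) := by
  classical
  obtain ⟨B, hB⟩ := P_bdd n
  have hs : Summable (fun k => c k * P n (e n + s k)) := by
    refine Summable.of_norm_bounded (c_summable.mul_right B) fun k => ?_
    rw [norm_mul, Real.norm_eq_abs, Real.norm_eq_abs, abs_of_pos (c_pos k)]
    exact mul_le_mul_of_nonneg_left (hB _) (c_pos k).le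
  have h1 := (hs.hasSum.update (K n) (c (K n) * P (n + 1) (e n + s (K n))))
  have e1 : Function.update (fun k => c k * P n (e n + s k)) (K n)
      (c (K n) * P (n + 1) (e n + s (K n))) = fun k => c k * P (n + 1) (e n + s k) := by
    funext k
    by_cases hk : k = K n
    · subst hk
      simp
    · rw [Function.update_of_ne hk]
      have : P (n + 1) (e n + s k) = P n (e n + s k) := by
        apply step_of_ne
        intro h'
        exact hk (s_inj (by linarith))
      rw [this]
  rw [e1] at h1
  have e2 : P (n + 1) (e n) = P n (e n) := P_stable n (n + 1) (by omega)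
  have e3 : P (n + 1) (e n + s (K n)) = P n (e n + s (K n)) +
      (P n (e n) - ∑' k, c k * P n (e n + s k)) / c (K n) := by
    change step n (P n) _ = _
    unfold step
    rw [if_pos h, Function.update_self]
  have e4 : P (n + 1) (e n) = c (K n) * P (n + 1) (e n + s (K n)) -
      c (K n) * P n (e n + s (K n)) + ∑' k, c k * P n (e n + s k) := by
    rw [e2, e3]
    have := (c_pos (K n)).ne'
    field_simp
    ring
  rw [e4]
  exact h1

/-- the function -/
def psi (q : ℚ) : ℝ := P (idx q) q

lemma psi_e (n : ℕ) (j : ℕ) : psi (e n + s j) = P (n + 1) (e n + s j) := by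
  unfold psi
  set m := idx (e n + s j) with hm
  have hq : e m = e n + s j := by rw [hm, e_idx]
  rcases Nat.lt_or_ge n m with h | h
  · exact P_stable' n m h j
  · rw [← hq]
    exact (P_stable m (n + 1) (by omega)).symm

theorem exists_psi : ∃ ψ : ℚ → ℝ, ψ 0 = 1 ∧ (∀ x, x < 0 → ψ x = 0) ∧ (∀ x, 1 ≤ x → ψ x = 0) ∧
    (∀ z, ∃ B, ∀ k, |ψ (z + s k)| ≤ B) ∧
    (∀ x, 0 ≤ x → HasSum (fun k => c k * ψ (x + s k)) (ψ x)) := by
  refine ⟨psi, P_zero _, fun x hx => P_supp _ _ (Or.inl hx), fun x hx => P_supp _ _ (Or.inr hx),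
    fun z => ?_, fun x hx => ?_⟩
  · obtain ⟨B, hB⟩ := P_bdd (idx z + 1)
    refine ⟨B, fun k => ?_⟩
    have := psi_e (idx z) k
    rw [e_idx] at this
    rw [this]
    exact hB _
  · rcases lt_or_ge x 1 with h1 | h1
    · have h2 := P_sum (idx x) (by rw [e_idx]; exact ⟨hx, h1⟩)
      have h3 : psi x = P (idx x + 1) x := by
        have := P_stable (idx x) (idx x + 1) (by omega)
        rw [e_idx] at this
        exact this.symm
      rw [e_idx] at h2
      rw [h3]
      convert h2 using 3 with k
      have := psi_e (idx x) k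
      rwa [e_idx] at this
    · have h3 : psi x = 0 := P_supp _ _ (Or.inr h1)
      have h4 : (fun k => c k * psi (x + s k)) = fun _ => 0 := by
        funext k
        have : psi (x + s k) = 0 := P_supp _ _ (Or.inr (by have := s_pos k; linarith))
        rw [this, mul_zero]
      rw [h3, h4]
      exact hasSum_zero

end

end Pool.Agent.H724R3.NonStd
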