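import Pool.Agent.H724R3.Alg

set_option autoImplicit false

/-!
# Quasinilpotence, and an element generating a dense ideal
-/

namespace Pool.Agent.H724R3.Semi

open Pool.Agent.H724R3.NonStd (lev lev_add lev_spec lev_le eq_div)
open Filter Topology

noncomputable section

lemma pow_e (s : S) (n : ℕ) (t : S) :
    (1 ≤ (t : ℚ) + n * s → ((B (e s)) ^ n) (e t) = 0) ∧
    (∀ h : (t : ℚ) + n * s < 1, ∃ c : ℂ, ((B (e s)) ^ n) (e t) =
      c • e ⟨(t : ℚ) + n * s, add_pos_of_pos_of_nonneg t.2.1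
        (mul_nonneg (Nat.cast_nonneg n) s.2.1.le), h⟩) := by
  induction n with
  | zero =>
    refine ⟨fun h => ?_, fun h => ⟨1, ?_⟩⟩
    · have := t.2.2
      simp only [Nat.cast_zero, zero_mul, add_zero] at h
      linarith
    · simp
  | succ n ih =>
    obtain ⟨ih1, ih2⟩ := ih
    have hs := s.2.1
    rw [pow_succ', ContinuousLinearMap.mul_apply]
    by_cases h0 : (t : ℚ) + n * s < 1
    · obtain ⟨c, hc⟩ := ih2 h0
      rw [hc, map_smul, B_ee]
      unfold vv
      refine ⟨fun h => ?_, fun h => ?_⟩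
      · rw [dif_neg, smul_zero]
        push_cast at h
        simp only
        intro h'
        linarith
      · push_cast at h
        rw [dif_pos (by simp only; linarith)]
        refine ⟨c * ((kap s ((t : ℚ) + n * s) : ℝ) : ℂ), ?_⟩
        rw [smul_smul]
        congr 2
        apply Subtype.ext
        simp only
        push_cast
        ring
    · push Not at h0
      rw [ih1 h0, map_zero]
      refine ⟨fun _ => rfl, fun h => ?_⟩
      push_cast at h
      exfalso
      nlinarith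

lemma nil_e (s : S) : IsNilpotent (B (e s)) := by
  obtain ⟨n, hn⟩ := exists_nat_gt (1 / (s : ℚ))
  refine ⟨n, ?_⟩
  apply ext_L
  intro t
  have hs := s.2.1
  have ht := t.2.1
  rw [(pow_e s n t).1]
  · rfl
  · rw [div_lt_iff₀ hs] at hn
    linarith

lemma comm_B (F G : L) : Commute (B F) (B G) := by
  apply ContinuousLinearMap.ext
  intro K
  rw [ContinuousLinearMap.mul_apply, ContinuousLinearMap.mul_apply, ← B_assoc, ← B_assoc,
    B_comm F G]

lemma nil_sum (A : Finset S) (c : S → ℂ) (f : S → S) :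
    IsNilpotent (B (∑ s ∈ A, c s • e (f s))) := by
  rw [map_sum]
  apply Commute.isNilpotent_sum
  · intro s _
    rw [map_smul]
    obtain ⟨n, hn⟩ := nil_e (f s)
    exact ⟨n, by rw [smul_pow, hn, smul_zero]⟩
  · intro s t _ _
    exact comm_B _ _

lemma approx (F : L) {ε : ℝ} (hε : 0 < ε) : ∃ A : Finset S, ‖F - ∑ s ∈ A, F s • e s‖ < ε := by
  have h := (hasSum_e F)
  rw [HasSum, Metric.tendsto_nhds] at h
  obtain ⟨A, hA⟩ := (h ε hε).exists
  refine ⟨A, ?_⟩
  rw [dist_comm, dist_eq_norm] at hA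
  exact hA

theorem add_bound {C : Type*} [NormedRing C] {x y : C} (hxy : Commute x y) {K K' l : ℝ}
    (hl : 0 ≤ l) (hK : 0 ≤ K)
    (hx : ∀ n : ℕ, ‖x ^ n‖ ≤ K * l ^ n) (hy : ∀ n : ℕ, ‖y ^ n‖ ≤ K' * l ^ n) (n : ℕ) :
    ‖(x + y) ^ n‖ ≤ K * K' * (2 * l) ^ n := by
  rw [hxy.add_pow]
  have h1 : ∀ m ∈ Finset.range (n + 1), ‖x ^ m * y ^ (n - m) * ((n.choose m : ℕ) : C)‖ ≤
      K * K' * l ^ n * (n.choose m : ℝ) := by
    intro m hm
    rw [Finset.mem_range] at hm
    have h2 : x ^ m * y ^ (n - m) * ((n.choose m : ℕ) : C) = (n.choose m) • (x ^ m * y ^ (n - m)) := by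
      rw [nsmul_eq_mul, (Nat.cast_commute _ _).eq]
    rw [h2]
    refine (norm_nsmul_le (n := n.choose m) (a := x ^ m * y ^ (n - m))).trans ?_
    rw [mul_comm]
    apply mul_le_mul_of_nonneg_right _ (Nat.cast_nonneg _)
    calc ‖x ^ m * y ^ (n - m)‖ ≤ ‖x ^ m‖ * ‖y ^ (n - m)‖ := norm_mul_le _ _
      _ ≤ (K * l ^ m) * (K' * l ^ (n - m)) :=
        mul_le_mul (hx m) (hy _) (norm_nonneg _) (mul_nonneg hK (pow_nonneg hl _))
      _ = K * K' * (l ^ m * l ^ (n - m)) := by ring
      _ = K * K' * l ^ n := by rw [← pow_add, Nat.add_sub_cancel' (by omega)]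
  refine (norm_sum_le_of_le _ h1).trans ?_
  rw [← Finset.mul_sum]
  have h3 : ∑ m ∈ Finset.range (n + 1), (n.choose m : ℝ) = 2 ^ n := by
    exact_mod_cast Nat.sum_range_choose n
  rw [h3, mul_pow]
  apply le_of_eq
  ring

theorem nil_bound {C : Type*} [NormedRing C] {x : C} (hx : IsNilpotent x) {l : ℝ} (hl : 0 < l) :
    ∃ K : ℝ, 0 ≤ K ∧ ∀ n : ℕ, ‖x ^ n‖ ≤ K * l ^ n := by
  obtain ⟨m, hm⟩ := hx
  refine ⟨∑ i ∈ Finset.range m, ‖x ^ i‖ / l ^ i, Finset.sum_nonneg fun i _ => by positivity,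
    fun n => ?_⟩
  by_cases h : n < m
  · have := Finset.single_le_sum (f := fun i => ‖x ^ i‖ / l ^ i) (fun i _ => by positivity)
      (Finset.mem_range.mpr h)
    rwa [div_le_iff₀ (by positivity)] at this
  · have h1 : x ^ n = 0 := by
      rw [← Nat.add_sub_cancel' (not_lt.mp h), pow_add, hm, zero_mul]
    rw [h1, norm_zero]
    exact mul_nonneg (Finset.sum_nonneg fun i _ => by positivity) (by positivity)

/-- every element is quasinilpotent -/
theorem quasi (F : L) {l : ℝ} (hl : 0 < l) : ∃ K : ℝ, 0 ≤ K ∧ ∀ n : ℕ, ‖(B F) ^ n‖ ≤ K * l ^ n := by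
  obtain ⟨A, hA⟩ := approx F (show 0 < l / 2 by linarith)
  set G : L := ∑ s ∈ A, F s • e s with hG
  obtain ⟨K, hK0, hK⟩ := nil_bound (nil_sum A (fun s => F s) id) (show 0 < l / 2 by linarith)
  have h1 : ∀ n : ℕ, ‖(B (F - G)) ^ n‖ ≤ 1 * (l / 2) ^ n := by
    intro n
    rw [one_mul]
    have h2 : ‖B (F - G)‖ ≤ l / 2 := by
      have h3 : ‖B‖ ≤ 1 := norm_lift_le _
      calc ‖B (F - G)‖ ≤ ‖B‖ * ‖F - G‖ := B.le_opNorm _
        _ ≤ 1 * (l / 2) := mul_le_mul h3 hA.le (norm_nonneg _) zero_le_one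
        _ = l / 2 := one_mul _
    rcases n with _ | n
    · rw [pow_zero, pow_zero]
      exact ContinuousLinearMap.norm_id_le
    · exact (norm_pow_le' _ (Nat.succ_pos n)).trans (pow_le_pow_left₀ (norm_nonneg _) h2 _)
  refine ⟨K * 1, by positivity, fun n => ?_⟩
  have h2 := add_bound (comm_B G (F - G)) (by linarith : 0 ≤ l / 2) hK0 hK h1 n
  rw [← map_add, add_sub_cancel] at h2
  have h3 : 2 * (l / 2) = l := by ring
  rwa [h3] at h2

/-- density of the elements whose multiples come close to `e q` -/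
theorem dense_U (q : S) {δ : ℝ} (hδ : 0 < δ) :
    Dense {b : L | ∃ y : L, ‖B b y - e q‖ < δ} := by
  rw [Metric.dense_iff]
  intro F ε hε
  obtain ⟨A, hA⟩ := approx F (show 0 < ε / 2 by linarith)
  -- a small exponent
  obtain ⟨s0, hs0⟩ : ∃ s0 : S, ∀ t ∈ insert q A, (s0 : ℚ) < t := by
    obtain ⟨m, hm, hmin⟩ := Finset.exists_min_image (insert q A) (fun t : S => (t : ℚ))
      ⟨q, Finset.mem_insert_self _ _⟩
    refine ⟨⟨(m : ℚ) / 2, by linarith [m.2.1], by linarith [m.2.1, m.2.2]⟩, fun t ht => ?_⟩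
    have := hmin t ht
    have := m.2.1
    simp only
    linarith
  set c : ℂ := ((ε / 4 : ℝ) : ℂ) with hc
  have hc0 : c ≠ 0 := by
    rw [hc, Complex.ofReal_ne_zero]
    linarith
  have hcn : ‖c‖ = ε / 4 := by
    rw [hc, Complex.norm_real, Real.norm_eq_abs, abs_of_pos (by linarith)]
  -- division by `e s0`
  have hdiv : ∀ t : S, (s0 : ℚ) < t → ∃ t' : S, ∃ a : ℂ, e t = a • B (e s0) (e t') := by
    intro t ht
    refine ⟨⟨(t : ℚ) - s0, by linarith, by linarith [t.2.2, s0.2.1]⟩,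
      (((kap s0 ((t : ℚ) - s0) : ℝ) : ℂ))⁻¹, ?_⟩
    rw [B_ee]
    unfold vv
    simp only
    rw [dif_pos (by linarith [t.2.2]), smul_smul, inv_mul_cancel₀, one_smul]
    · congr 1
      apply Subtype.ext
      simp
    · rw [Complex.ofReal_ne_zero]
      unfold kap
      exact (div_pos (w_pos _) (mul_pos (w_pos _) (w_pos _))).ne'
  choose! f a hfa using hdiv
  set N : L := ∑ t ∈ A, (F t * a t) • e (f t) with hN
  have hg : ∑ s ∈ A, F s • e s = B (e s0) N := by
    rw [hN, map_sum]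
    refine Finset.sum_congr rfl fun t ht => ?_
    rw [map_smul, ← smul_smul, ← hfa t (hs0 t (Finset.mem_insert_of_mem ht))]
  have hunit : IsUnit (c • (1 : L →L[ℂ] L) + B N) := by
    apply IsNilpotent.isUnit_add_left_of_commute (nil_sum A _ f)
    · have h1 := (isUnit_iff_ne_zero.mpr hc0).map (algebraMap ℂ (L →L[ℂ] L))
      rwa [Algebra.algebraMap_eq_smul_one] at h1
    · rw [Commute, SemiconjBy, mul_smul_comm, smul_mul_assoc, one_mul, mul_one]
  obtain ⟨u, hu⟩ := hunit
  refine ⟨∑ s ∈ A, F s • e s + c • e s0, ?_, ?_⟩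
  · rw [Metric.mem_ball, dist_comm, dist_eq_norm]
    have h1 : F - (∑ s ∈ A, F s • e s + c • e s0) = (F - ∑ s ∈ A, F s • e s) - c • e s0 := by abel
    rw [h1]
    refine (norm_sub_le _ _).trans_lt ?_
    rw [norm_smul, norm_e, hcn]
    linarith
  · refine ⟨((u⁻¹ : (L →L[ℂ] L)ˣ) : L →L[ℂ] L) (a q • e (f q)), ?_⟩
    set y : L := ((u⁻¹ : (L →L[ℂ] L)ˣ) : L →L[ℂ] L) (a q • e (f q)) with hy
    have h1 : (c • (1 : L →L[ℂ] L) + B N) y = a q • e (f q) := by
      rw [← hu, hy]
      rw [← ContinuousLinearMap.mul_apply, Units.mul_inv]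
      rfl
    have h2 : B (∑ s ∈ A, F s • e s + c • e s0) y = B (e s0) ((c • (1 : L →L[ℂ] L) + B N) y) := by
      rw [hg, B_add_left, B_smul_left, B_assoc, _root_.add_apply, map_add,
        _root_.smul_apply, ContinuousLinearMap.one_apply, map_smul]
      abel
    rw [h2, h1, map_smul, ← hfa q (hs0 q (Finset.mem_insert_self _ _)), sub_self, norm_zero]
    exact hδ

/-- an element generating a dense ideal -/
theorem exists_b : ∃ b : L, DenseRange (fun x : L => B b x) := by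
  have hU : ∀ p : S × ℕ, IsOpen {b : L | ∃ y : L, ‖B b y - e p.1‖ < 1 / ((p.2 : ℝ) + 1)} := by
    intro p
    have : {b : L | ∃ y : L, ‖B b y - e p.1‖ < 1 / ((p.2 : ℝ) + 1)} =
        ⋃ y : L, {b : L | ‖B b y - e p.1‖ < 1 / ((p.2 : ℝ) + 1)} := by
      ext b
      simp
    rw [this]
    apply isOpen_iUnion
    intro y
    apply isOpen_lt _ continuous_const
    have h1 : Continuous fun b : L => B b y := (B.flip y).continuous
    exact (h1.sub continuous_const).norm
  have hD := dense_iInter_of_isOpen hU fun p => dense_U p.1 (by positivity)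
  obtain ⟨b, hb⟩ := hD.nonempty
  rw [Set.mem_iInter] at hb
  refine ⟨b, ?_⟩
  set M : Submodule ℂ L := (LinearMap.range (B b).toLinearMap).topologicalClosure with hM
  have he : ∀ q, e q ∈ M := by
    intro q
    change e q ∈ closure (LinearMap.range (B b).toLinearMap : Set L)
    rw [Metric.mem_closure_iff]
    intro ε hε
    obtain ⟨k, hk⟩ := exists_nat_one_div_lt hε
    obtain ⟨y, hy⟩ := hb (q, k)
    refine ⟨B b y, ⟨y, rfl⟩, ?_⟩
    rw [dist_comm, dist_eq_norm]
    exact hy.trans hk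
  intro F
  have hF : F ∈ M := by
    have hcl : IsClosed (M : Set L) := Submodule.isClosed_topologicalClosure _
    refine hcl.mem_of_tendsto (hasSum_e F) (Eventually.of_forall fun A => ?_)
    exact M.sum_mem fun s _ => M.smul_mem _ (he s)
  exact hF

end

end Pool.Agent.H724R3.Semi
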