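import Pool.Agent.H724R3.Psi

set_option autoImplicit false

/-!
# A radical weight on the rationals
-/

namespace Pool.Agent.H724R3.NonStd

open Filter Topology

noncomputable section

lemma exists_level (q : ℚ) : ∃ n : ℕ, q.den ∣ n.factorial :=
  ⟨q.den, Nat.dvd_factorial q.den_pos le_rfl⟩

/-- the least `n` such that the denominator divides `n!` -/
def lev (q : ℚ) : ℕ := Nat.find (exists_level q)

lemma lev_spec (q : ℚ) : q.den ∣ (lev q).factorial := Nat.find_spec (exists_level q)

lemma lev_le {q : ℚ} {n : ℕ} (h : q.den ∣ n.factorial) : lev q ≤ n :=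
  Nat.find_min' (exists_level q) h

lemma lev_add (x y : ℚ) : lev (x + y) ≤ max (lev x) (lev y) := by
  apply lev_le
  refine (Rat.add_den_dvd_lcm x y).trans (Nat.lcm_dvd ?_ ?_)
  · exact (lev_spec x).trans (Nat.factorial_dvd_factorial (le_max_left _ _))
  · exact (lev_spec y).trans (Nat.factorial_dvd_factorial (le_max_right _ _))

lemma eq_div (x : ℚ) (h0 : 0 ≤ x) (h2 : x < 2) :
    ∃ j ∈ Finset.range (2 * (lev x).factorial), x = (j : ℚ) / ((lev x).factorial : ℚ) := by
  obtain ⟨t, ht⟩ := lev_spec x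
  have hf : ((lev x).factorial : ℚ) = x.den * t := by exact_mod_cast ht
  have hf0 : (0 : ℚ) < ((lev x).factorial : ℚ) := by exact_mod_cast Nat.factorial_pos _
  have hx : x * ((lev x).factorial : ℚ) = ((x.num * t : ℤ) : ℚ) := by
    rw [hf, ← mul_assoc, Rat.mul_den_eq_num]
    push_cast
    ring
  have hn : 0 ≤ x.num * t := mul_nonneg (Rat.num_nonneg.mpr h0) (by positivity)
  obtain ⟨j, hj⟩ := Int.eq_ofNat_of_zero_le hn
  refine ⟨j, ?_, ?_⟩
  · rw [Finset.mem_range]
    have : ((j : ℕ) : ℚ) < 2 * ((lev x).factorial : ℚ) := by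
      have h3 : ((x.num * t : ℤ) : ℚ) = (j : ℚ) := by rw [hj]; simp
      rw [← h3, ← hx]
      exact mul_lt_mul_of_pos_right h2 hf0
    exact_mod_cast this
  · rw [eq_div_iff hf0.ne', hx, hj]
    simp

/-- the sum of the values of `|B|` up to level `n` -/
def MM (B : ℚ → ℝ) (n : ℕ) : ℝ :=
  ∑ m ∈ Finset.range (n + 1), ∑ j ∈ Finset.range (2 * m.factorial), |B ((j : ℚ) / (m.factorial : ℚ))|

lemma MM_nonneg (B : ℚ → ℝ) (n : ℕ) : 0 ≤ MM B n :=
  Finset.sum_nonneg fun _ _ => Finset.sum_nonneg fun _ _ => abs_nonneg _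

lemma MM_mono (B : ℚ → ℝ) : Monotone (MM B) := by
  intro a b h
  unfold MM
  apply Finset.sum_le_sum_of_subset_of_nonneg
  · intro i hi
    rw [Finset.mem_range] at hi ⊢
    omega
  · intro _ _ _
    exact Finset.sum_nonneg fun _ _ => abs_nonneg _

theorem exists_W (B : ℚ → ℝ) : ∃ W : ℚ → ℝ, (∀ x, 1 ≤ W x) ∧ (∀ x y, W (x + y) ≤ W x * W y) ∧
    (∀ x, 0 ≤ x → x < 2 → B x ≤ W x) := by
  have key : ∀ x, 1 ≤ 1 + MM B (lev x) := fun x => by linarith [MM_nonneg B (lev x)]
  refine ⟨fun x => 1 + MM B (lev x), key, fun x y => ?_, fun x h0 h2 => ?_⟩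
  · have h1 : 1 + MM B (lev (x + y)) ≤ 1 + MM B (max (lev x) (lev y)) := by
      linarith [MM_mono B (lev_add x y)]
    refine h1.trans ?_
    rcases max_cases (lev x) (lev y) with ⟨h, _⟩ | ⟨h, _⟩ <;> rw [h]
    · nlinarith [key x, key y]
    · nlinarith [key x, key y]
  · obtain ⟨j, hj, hx⟩ := eq_div x h0 h2
    have h1 : |B x| ≤ MM B (lev x) := by
      unfold MM
      refine le_trans ?_ (Finset.single_le_sum (f := fun m => ∑ j ∈ Finset.range (2 * m.factorial),
        |B ((j : ℚ) / (m.factorial : ℚ))|) (fun _ _ => Finset.sum_nonneg fun _ _ => abs_nonneg _)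
        (Finset.mem_range.mpr (Nat.lt_succ_self (lev x))))
      conv_lhs => rw [hx]
      exact Finset.single_le_sum (f := fun j : ℕ => |B ((j : ℚ) / ((lev x).factorial : ℚ))|)
        (fun _ _ => abs_nonneg _) hj
    change B x ≤ 1 + MM B (lev x)
    linarith [le_abs_self (B x)]

/-- The weight: `φ y` is the functional, `w` the weight, both on the rationals. -/
theorem exists_weight : ∃ (φ w : ℚ → ℝ) (C : ℝ), 0 < C ∧ (∀ y, 0 < w y) ∧
    (∀ y u, 0 ≤ y → 0 ≤ u → w (y + u) ≤ w y * w u) ∧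
    (∀ t : ℚ, 0 < t → Tendsto (fun n : ℕ => w ((n : ℚ) * t) ^ ((1 : ℝ) / (n : ℝ))) atTop (𝓝 0)) ∧
    (∀ y, 0 ≤ y → |φ y| ≤ C * w y) ∧ (∀ k, w (1 + s k) ≤ C) ∧ φ 1 = 1 ∧ (∀ y, y < 1 → φ y = 0) ∧
    (∀ x, 0 ≤ x → HasSum (fun k => c k * φ (1 + s k + x)) (φ (1 + x))) := by
  obtain ⟨ψ, hψ0, hψneg, hψ1, hψb, hψs⟩ := exists_psi
  choose B1 hB1 using hψb
  obtain ⟨W, hW1, hWm, hWB⟩ := exists_W (fun z => B1 z + |ψ (z - 1)|)
  have hB1nn : ∀ z, 0 ≤ B1 z := fun z => (abs_nonneg _).trans (hB1 z 0)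
  have hWpos : ∀ x, 0 < W x := fun x => lt_of_lt_of_le one_pos (hW1 x)
  have hφW : ∀ v, |ψ (v - 1)| ≤ W v := by
    intro v
    by_cases h0 : v < 1
    · rw [hψneg _ (by linarith), abs_zero]
      exact (hWpos v).le
    by_cases h2 : v < 2
    · have := hWB v (by linarith) h2
      linarith [hB1nn v]
    · rw [hψ1 _ (by linarith), abs_zero]
      exact (hWpos v).le
  have hbound : ∀ y, ∀ z : {z : ℚ // 0 ≤ z}, |ψ (y + z.1 - 1)| / W z.1 ≤ W y := by
    intro y z
    rw [div_le_iff₀ (hWpos _)]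
    exact (hφW _).trans (hWm y z.1)
  have hbdd : ∀ y, BddAbove (Set.range fun z : {z : ℚ // 0 ≤ z} => |ψ (y + z.1 - 1)| / W z.1) :=
    fun y => ⟨W y, by rintro _ ⟨z, rfl⟩; exact hbound y z⟩
  have hne : Nonempty {z : ℚ // 0 ≤ z} := ⟨⟨0, le_rfl⟩⟩
  set S : ℚ → ℝ := fun y => ⨆ z : {z : ℚ // 0 ≤ z}, |ψ (y + z.1 - 1)| / W z.1 with hS
  have hS0 : ∀ y, 0 ≤ S y := fun y => Real.iSup_nonneg fun z => div_nonneg (abs_nonneg _) (hWpos _).le
  have hSle : ∀ y, ∀ z, 0 ≤ z → |ψ (y + z - 1)| ≤ S y * W z := by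
    intro y z hz
    have := le_ciSup (hbdd y) ⟨z, hz⟩
    rw [← div_le_iff₀ (hWpos _)]
    exact this
  have hSub : ∀ y b, (∀ z, 0 ≤ z → |ψ (y + z - 1)| ≤ b * W z) → S y ≤ b := by
    intro y b h
    apply ciSup_le
    rintro ⟨z, hz⟩
    rw [div_le_iff₀ (hWpos _)]
    exact h z hz
  set w0 : ℚ → ℝ := fun y => if y < 1 then W y else S y with hw0
  have hw0nn : ∀ y, 0 ≤ w0 y := by
    intro y
    simp only [hw0]
    split_ifs
    · exact (hWpos y).le
    · exact hS0 y
  have hw0m : ∀ y u, 0 ≤ y → 0 ≤ u → w0 (y + u) ≤ w0 y * w0 u := by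
    have half : ∀ y u, 1 ≤ y → 0 ≤ u → S (y + u) ≤ S y * W u := by
      intro y u _ hu
      apply hSub
      intro z hz
      have h1 := hSle y (u + z) (by linarith)
      rw [← add_assoc] at h1
      calc |ψ (y + u + z - 1)| ≤ S y * W (u + z) := h1
        _ ≤ S y * (W u * W z) := mul_le_mul_of_nonneg_left (hWm u z) (hS0 y)
        _ = S y * W u * W z := by ring
    intro y u hy hu
    simp only [hw0]
    by_cases h : y + u < 1
    · rw [if_pos h, if_pos (by linarith), if_pos (by linarith)]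
      exact hWm y u
    · rw [if_neg h]
      by_cases h1 : y < 1
      · by_cases h2 : u < 1
        · rw [if_pos h1, if_pos h2]
          apply hSub
          intro z hz
          calc |ψ (y + u + z - 1)| ≤ W (y + u + z) := hφW _
            _ ≤ W (y + u) * W z := hWm _ _
            _ ≤ W y * W u * W z := mul_le_mul_of_nonneg_right (hWm y u) (hWpos z).le
        · rw [if_pos h1, if_neg h2]
          have := half u y (by linarith) hy
          rw [add_comm y u, mul_comm (W y)]
          exact this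
      · by_cases h2 : u < 1
        · rw [if_neg h1, if_pos h2]
          exact half y u (by linarith) hu
        · rw [if_neg h1, if_neg h2]
          have : S (y + u) ≤ 0 := by
            apply hSub
            intro z hz
            rw [hψ1 _ (by linarith), abs_zero, zero_mul]
          exact this.trans (mul_nonneg (hS0 y) (hS0 u))
  refine ⟨fun y => ψ (y - 1), fun y => max (w0 y) (Real.exp (-(y : ℝ) ^ 2)), W 0,
    hWpos 0, fun y => lt_max_of_lt_right (Real.exp_pos _), ?_, ?_, ?_, ?_, ?_, ?_, ?_⟩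
  · intro y u hy hu
    apply max_le
    · exact (hw0m y u hy hu).trans (mul_le_mul (le_max_left _ _) (le_max_left _ _) (hw0nn u)
        ((hw0nn y).trans (le_max_left _ _)))
    · have h1 : Real.exp (-((y + u : ℚ) : ℝ) ^ 2) ≤
          Real.exp (-(y : ℝ) ^ 2) * Real.exp (-(u : ℝ) ^ 2) := by
        rw [← Real.exp_add]
        apply Real.exp_le_exp.mpr
        have hy' : (0 : ℝ) ≤ y := by exact_mod_cast hy
        have hu' : (0 : ℝ) ≤ u := by exact_mod_cast hu
        push_cast
        nlinarith [mul_nonneg hy' hu']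
      exact h1.trans (mul_le_mul (le_max_right _ _) (le_max_right _ _) (Real.exp_pos _).le
        ((hw0nn y).trans (le_max_left _ _)))
  · intro t ht
    have ht' : (0 : ℝ) < t := by exact_mod_cast ht
    have h1 : Tendsto (fun n : ℕ => Real.exp (-((n : ℝ) * (t : ℝ) ^ 2))) atTop (𝓝 0) := by
      apply Real.tendsto_exp_neg_atTop_nhds_zero.comp
      exact tendsto_natCast_atTop_atTop.atTop_mul_const (by positivity)
    refine h1.congr' ?_
    obtain ⟨N, hN⟩ := exists_nat_gt (2 / t)
    filter_upwards [eventually_ge_atTop N, eventually_ge_atTop 1] with n hn hn1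
    have hn' : (N : ℚ) ≤ n := by exact_mod_cast hn
    have h2 : 2 ≤ (n : ℚ) * t := by
      rw [div_lt_iff₀ ht] at hN
      nlinarith
    have h3 : w0 ((n : ℚ) * t) = 0 := by
      simp only [hw0]
      rw [if_neg (by linarith)]
      apply le_antisymm _ (hS0 _)
      apply hSub
      intro z hz
      rw [hψ1 _ (by linarith), abs_zero, zero_mul]
    have hnpos : (0 : ℝ) < n := by exact_mod_cast hn1
    simp only [h3]
    rw [max_eq_right (Real.exp_pos _).le, ← Real.exp_mul]
    congr 1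
    push_cast
    field_simp
  · intro y hy
    by_cases h : y < 1
    · simp only
      rw [hψneg _ (by linarith), abs_zero]
      exact mul_nonneg (hWpos 0).le ((hw0nn y).trans (le_max_left _ _))
    · have h1 := hSle y 0 le_rfl
      rw [add_zero] at h1
      have h2 : w0 y = S y := by simp only [hw0]; rw [if_neg h]
      calc |ψ (y - 1)| ≤ S y * W 0 := h1
        _ = W 0 * w0 y := by rw [h2, mul_comm]
        _ ≤ W 0 * max (w0 y) (Real.exp (-(y : ℝ) ^ 2)) :=
          mul_le_mul_of_nonneg_left (le_max_left _ _) (hWpos 0).le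
  · intro k
    apply max_le
    · simp only [hw0]
      have := s_pos k
      rw [if_neg (by linarith)]
      apply (hSub (1 + s k) 1 _).trans (hW1 0)
      intro z hz
      rw [one_mul]
      by_cases hz1 : z < 1
      · have h1 := hB1 z k
        have h2 := hWB z hz (by linarith)
        have h3 : 1 + s k + z - 1 = z + s k := by ring
        rw [h3]
        linarith [abs_nonneg (ψ (z - 1))]
      · rw [hψ1 _ (by linarith), abs_zero]
        exact (hWpos z).le
    · refine le_trans ?_ (hW1 0)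
      apply Real.exp_le_one_iff.mpr
      nlinarith [sq_nonneg ((1 + s k : ℚ) : ℝ)]
  · simp [hψ0]
  · intro y hy
    exact hψneg _ (by linarith)
  · intro x hx
    have h := hψs x hx
    have h1 : (1 : ℚ) + x - 1 = x := by ring
    simp only [h1]
    convert h using 3 with k
    ring_nf

end

end Pool.Agent.H724R3.NonStd
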